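import Pool.Agent.U471.RP.LogNear

set_option autoImplicit false

/-!
All the integers near almost all the values of a real polynomial, with a power saving: from a theorem on families of integers
of small additive energy to a theorem on the neighbourhoods of the values of real polynomials, uniformly in the coefficients.
-/

namespace Pool.Agent.U471.RP

open Finset Polynomial
open Pool.Agent.TH935.GF (En)
open Pool.Agent.H373R2.T7 (energy)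

/-- The real polynomials `f` of degree at most `d`, with `N ^ (-δ) ≤ f_d ≤ N ^ δ` for the coefficient `f_d`
of `t ^ d`, and with `|f(m)| ≤ B N` for `m = 1, …, x`, where `x ^ d ≥ N ^ (1 - δ)`. -/
structure NorP (d B N x : ℕ) (δ : ℝ) (f : ℝ[X]) : Prop where
  degree : f.natDegree ≤ d
  lower : (N : ℝ) ^ (-δ) ≤ f.coeff d
  upper : f.coeff d ≤ (N : ℝ) ^ δ
  length : (N : ℝ) ^ (1 - δ) ≤ (x : ℝ) ^ d
  values : ∀ m ∈ Icc 1 x, |f.eval (m : ℝ)| ≤ B * N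

lemma ev_rpow' {δ : ℝ} (hδ : 0 < δ) (M : ℝ) : ∃ N₀ : ℕ, ∀ N : ℕ, N₀ ≤ N → M ≤ (N : ℝ) ^ δ := by
  have h1 : Filter.Tendsto (fun N : ℕ => (N : ℝ) ^ δ) Filter.atTop Filter.atTop :=
    (tendsto_rpow_atTop hδ).comp tendsto_natCast_atTop_atTop
  obtain ⟨N₁, h2⟩ := Filter.eventually_atTop.1 (h1.eventually_ge_atTop M)
  exact ⟨N₁, h2⟩

/-- **From families of small energy to the neighbourhoods of the values of real polynomials, with a power saving.** -/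
theorem pow_near (d : ℕ) (hd : 1 ≤ d) : ∃ p : ℕ, 1 ≤ p ∧ ∀ δ0 : ℝ, 0 < δ0 → ∃ δ : ℝ, 0 < δ ∧ 24 * δ ≤ δ0 ∧
    ∀ (B : ℕ) {Θ : Type} (adm : ℕ → Θ → Prop) (Bad : ℕ → Θ → ℤ → Prop) (N₁ : ℕ),
      (∀ N : ℕ, N₁ ≤ N → ∀ θ, adm N θ → ∀ (x : ℕ) (s : ℕ → ℤ), (∀ m ∈ Icc 1 x, |s m| ≤ (B + 1 : ℕ) * N) →
        (En p (fun i : Fin x => s ((i : ℕ) + 1)) : ℝ) * N ≤ (N : ℝ) ^ δ0 * (x : ℝ) ^ (2 * p) →
        ∀ S ⊆ Icc 1 x, (∀ m ∈ S, Bad N θ (s m)) → (S.card : ℝ) ≤ x * (N : ℝ) ^ (-δ0)) →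
      ∃ N₀ : ℕ, ∀ N : ℕ, N₀ ≤ N → ∀ θ, adm N θ → ∀ (x : ℕ) (f : ℝ[X]), NorP d B N x δ f →
        ∀ S ⊆ Icc 1 x, (∀ m ∈ S, ∃ b : ℤ, |(b : ℝ) - f.eval (m : ℝ)| ≤ (N : ℝ) ^ δ ∧ Bad N θ b) →
        (S.card : ℝ) ≤ x * (N : ℝ) ^ (-δ) := by
  classical
  obtain ⟨K, p, hK, hp, h1⟩ := energy_real d hd
  refine ⟨p, hp, fun δ0 hδ0 => ?_⟩
  obtain ⟨δ, hδ⟩ : ∃ δ, δ = min δ0 1 / 24 := ⟨_, rfl⟩
  have hδ1 : 24 * δ ≤ δ0 := by rw [hδ]; have := min_le_left δ0 1; linarith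
  have hδ2 : 24 * δ ≤ 1 := by rw [hδ]; have := min_le_right δ0 1; linarith
  have hδp : 0 < δ := by rw [hδ]; have := lt_min hδ0 one_pos; linarith
  refine ⟨δ, hδp, hδ1, fun B Θ adm Bad N₁ hlaw => ?_⟩
  obtain ⟨N₂, hN₂⟩ := ev_rpow' hδp (max 7 (9 * K * p ^ 2))
  refine ⟨max 1 (max N₁ N₂), fun N hN θ hθ x f hf S hSx hS => ?_⟩
  have hN1 : 1 ≤ N := (le_max_left _ _).trans hN
  have hNa : N₁ ≤ N := ((le_max_left _ _).trans (le_max_right _ _)).trans hN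
  have hNb : N₂ ≤ N := ((le_max_right _ _).trans (le_max_right _ _)).trans hN
  have hN1r : (1 : ℝ) ≤ N := by exact_mod_cast hN1
  have hN0 : (0 : ℝ) < N := by linarith
  obtain ⟨t, ht⟩ : ∃ t, t = (N : ℝ) ^ δ := ⟨_, rfl⟩
  have ht7 : 7 ≤ t := by rw [ht]; exact (le_max_left _ _).trans (hN₂ N hNb)
  have htK : 9 * K * p ^ 2 ≤ t := by rw [ht]; exact (le_max_right _ _).trans (hN₂ N hNb)
  have ht0 : 0 < t := by linarith
  have htn : ∀ n : ℕ, t ^ n = (N : ℝ) ^ (n * δ) := by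
    intro n
    rw [ht, ← Real.rpow_natCast, ← Real.rpow_mul hN0.le, mul_comm]
  have ht2 : t ^ 2 ≤ N := by
    rw [htn]
    calc (N : ℝ) ^ (((2 : ℕ) : ℝ) * δ) ≤ (N : ℝ) ^ (1 : ℝ) := Real.rpow_le_rpow_of_exponent_le hN1r (by push_cast; linarith)
      _ = N := Real.rpow_one _
  have ht9 : t ^ 9 ≤ (N : ℝ) ^ δ0 := by
    rw [htn]
    exact Real.rpow_le_rpow_of_exponent_le hN1r (by push_cast; linarith)
  have hinv : (N : ℝ) ^ (-δ) = 1 / t := by rw [Real.rpow_neg hN0.le, ← ht, one_div]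
  have hf1 := hf.lower
  have hf2 := hf.upper
  have hx := hf.length
  have hfx := hf.values
  rw [hinv] at hf1
  rw [← ht] at hf2 hS
  have hx0 : 1 ≤ x := by
    by_contra hcon
    have h2 : x = 0 := by omega
    rw [h2] at hx
    have h3 : 0 < (N : ℝ) ^ (1 - δ) := Real.rpow_pos_of_pos hN0 _
    rw [Nat.cast_zero, zero_pow (by omega)] at hx
    linarith
  have hNx : (N : ℝ) ≤ t * (x : ℝ) ^ d := by
    calc (N : ℝ) = (N : ℝ) ^ δ * (N : ℝ) ^ (1 - δ) := by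
          rw [← Real.rpow_add hN0]
          have : δ + (1 - δ) = 1 := by ring
          rw [this, Real.rpow_one]
      _ ≤ t * (x : ℝ) ^ d := by rw [← ht]; exact mul_le_mul_of_nonneg_left hx ht0.le
  -- the family with the offset `c`
  obtain ⟨M, hM⟩ : ∃ M : ℕ, M = ⌊t⌋₊ + 1 := ⟨_, rfl⟩
  have hMt : (M : ℝ) ≤ t + 1 := by
    rw [hM]; push_cast
    have := Nat.floor_le ht0.le
    linarith
  have hfam : ∀ c ∈ Icc (-(M : ℤ)) M, (((S.filter (fun m : ℕ => Bad N θ (⌊f.eval (m : ℝ)⌋ + c))).card : ℕ) : ℝ) ≤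
      x * (N : ℝ) ^ (-δ0) := by
    intro c hc
    rw [mem_Icc] at hc
    have hc1 : |(c : ℝ)| ≤ t + 1 := by
      rw [abs_le]
      have h2 : (-(M : ℝ)) ≤ c := by exact_mod_cast hc.1
      have h3 : (c : ℝ) ≤ M := by exact_mod_cast hc.2
      constructor <;> linarith
    have hfl : ∀ y : ℝ, |((⌊y⌋ : ℤ) : ℝ) - y| ≤ 1 := by
      intro y
      have h7 := Int.floor_le y
      have h8 := Int.lt_floor_add_one y
      rw [abs_le]
      constructor <;> linarith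
    refine hlaw N hNa θ hθ x (fun m => ⌊f.eval (m : ℝ)⌋ + c) ?_ ?_ _ ((filter_subset _ _).trans hSx)
      (fun m hm => (mem_filter.1 hm).2)
    · intro m hm
      have h2 := hfx m hm
      have h3 := hfl (f.eval (m : ℝ))
      have h4 : |((⌊f.eval (m : ℝ)⌋ : ℤ) : ℝ) + c| ≤ (B + 1) * N := by
        have h5 : |((⌊f.eval (m : ℝ)⌋ : ℤ) : ℝ) + c| ≤ |((⌊f.eval (m : ℝ)⌋ : ℤ) : ℝ) - f.eval (m : ℝ)| + |f.eval (m : ℝ)| + |(c : ℝ)| := by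
          have e1 : ((⌊f.eval (m : ℝ)⌋ : ℤ) : ℝ) + c = (((⌊f.eval (m : ℝ)⌋ : ℤ) : ℝ) - f.eval (m : ℝ)) + f.eval (m : ℝ) + c := by ring
          rw [e1]
          refine (abs_add_le _ _).trans ?_
          have := abs_add_le (((⌊f.eval (m : ℝ)⌋ : ℤ) : ℝ) - f.eval (m : ℝ)) (f.eval (m : ℝ))
          linarith
        have h6 : t + 2 ≤ N := by nlinarith
        linarith
      exact_mod_cast h4
    · have h2 := h1 x N hx0 hN1 t (t + 2) (by linarith) (by linarith) hNx f hf.degree hf1 hf2 p le_rfl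
        (fun i : Fin x => ⌊f.eval ((((i : ℕ) + 1 : ℕ)) : ℝ)⌋ + c) (by
          intro i
          have h3 := hfl (f.eval ((((i : ℕ) + 1 : ℕ)) : ℝ))
          push_cast at h3 ⊢
          have e1 : ((⌊f.eval (((i : ℕ) : ℝ) + 1)⌋ : ℤ) : ℝ) + c - f.eval (((i : ℕ) : ℝ) + 1) =
            (((⌊f.eval (((i : ℕ) : ℝ) + 1)⌋ : ℤ) : ℝ) - f.eval (((i : ℕ) : ℝ) + 1)) + c := by ring
          rw [e1]
          refine (abs_add_le _ _).trans ?_
          linarith)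
      calc (En p (fun i : Fin x => ⌊f.eval ((((i : ℕ) + 1 : ℕ)) : ℝ)⌋ + c) : ℝ) * N
          ≤ (K * p ^ 2 * (t + 2) ^ 2 * t ^ 6) * (x : ℝ) ^ (2 * p) := h2
        _ ≤ (K * p ^ 2 * (3 * t) ^ 2 * t ^ 6) * (x : ℝ) ^ (2 * p) := by gcongr; linarith
        _ = (9 * K * p ^ 2) * t ^ 8 * (x : ℝ) ^ (2 * p) := by ring
        _ ≤ t * t ^ 8 * (x : ℝ) ^ (2 * p) := by gcongr
        _ = t ^ 9 * (x : ℝ) ^ (2 * p) := by ring
        _ ≤ (N : ℝ) ^ δ0 * (x : ℝ) ^ (2 * p) := by gcongr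
  have hsub : S ⊆ (Icc (-(M : ℤ)) M).biUnion (fun c => S.filter (fun m : ℕ => Bad N θ (⌊f.eval (m : ℝ)⌋ + c))) := by
    intro m hm
    obtain ⟨k, hk1, hk2⟩ := hS m hm
    rw [mem_biUnion]
    have h7 := Int.floor_le (f.eval (m : ℝ))
    have h8 := Int.lt_floor_add_one (f.eval (m : ℝ))
    have h9 := abs_le.1 hk1
    have hfl1 : t < (⌊t⌋₊ : ℝ) + 1 := Nat.lt_floor_add_one t
    refine ⟨k - ⌊f.eval (m : ℝ)⌋, ?_, ?_⟩
    · rw [mem_Icc, hM]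
      constructor
      · have h10 : -((⌊t⌋₊ : ℝ) + 1 + 1) < (k : ℝ) - ⌊f.eval (m : ℝ)⌋ := by linarith [h9.1]
        have h11 : -((⌊t⌋₊ : ℤ) + 1 + 1) < k - ⌊f.eval (m : ℝ)⌋ := by exact_mod_cast h10
        push_cast
        omega
      · have h10 : (k : ℝ) - ⌊f.eval (m : ℝ)⌋ < (⌊t⌋₊ : ℝ) + 1 + 1 := by linarith [h9.2]
        have h11 : k - ⌊f.eval (m : ℝ)⌋ < (⌊t⌋₊ : ℤ) + 1 + 1 := by exact_mod_cast h10
        push_cast
        omega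
    · rw [mem_filter]
      have e1 : ⌊f.eval (m : ℝ)⌋ + (k - ⌊f.eval (m : ℝ)⌋) = k := by ring
      rw [e1]
      exact ⟨hm, hk2⟩
  have hcard : (S.card : ℝ) ≤ ∑ c ∈ Icc (-(M : ℤ)) M, (((S.filter (fun m : ℕ => Bad N θ (⌊f.eval (m : ℝ)⌋ + c))).card : ℕ) : ℝ) := by
    have h2 := (card_le_card hsub).trans card_biUnion_le
    exact_mod_cast h2
  refine hcard.trans ((sum_le_sum hfam).trans ?_)
  rw [sum_const, Int.card_Icc, nsmul_eq_mul]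
  have h2 : ((M : ℤ) + 1 - -(M : ℤ)).toNat = 2 * M + 1 := by omega
  rw [h2]
  have h3 : ((2 * M + 1 : ℕ) : ℝ) ≤ t ^ 2 := by push_cast; nlinarith
  calc ((2 * M + 1 : ℕ) : ℝ) * (x * (N : ℝ) ^ (-δ0)) ≤ t ^ 2 * (x * (N : ℝ) ^ (-δ0)) :=
        mul_le_mul_of_nonneg_right h3 (by positivity)
    _ = x * ((N : ℝ) ^ (((2 : ℕ) : ℝ) * δ) * (N : ℝ) ^ (-δ0)) := by rw [htn]; ring
    _ = x * (N : ℝ) ^ (((2 : ℕ) : ℝ) * δ + -δ0) := by rw [Real.rpow_add hN0]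
    _ ≤ x * (N : ℝ) ^ (-δ) := by
        apply mul_le_mul_of_nonneg_left _ (Nat.cast_nonneg _)
        apply Real.rpow_le_rpow_of_exponent_le hN1r
        push_cast
        linarith

end Pool.Agent.U471.RP
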