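import Pool.Agent.U471.RP.LogNear

set_option autoImplicit false

/-!
Variant of `log_near` for laws about families of integers `|s m| ≤ N`.
-/

namespace Pool.Agent.U471.RP

open Finset Polynomial
open Pool.Agent.TH935.GF (En)
open Pool.Agent.H373R2.T7 (energy)

/-- The real polynomials `f` of degree at most `d`, with `(log N) ^ (-C) ≤ f_d ≤ (log N) ^ C` for the coefficient `f_d`
of `t ^ d`, and with `|f(m)| ≤ N / 2` for `m = 1, …, x`, where `(log N) ^ C x ^ d ≥ N`. -/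
structure NorH (d C N x : ℕ) (f : ℝ[X]) : Prop where
  degree : f.natDegree ≤ d
  lower : 1 / Real.log N ^ C ≤ f.coeff d
  upper : f.coeff d ≤ Real.log N ^ C
  length : (N : ℝ) ≤ Real.log N ^ C * (x : ℝ) ^ d
  values : ∀ m ∈ Icc 1 x, |f.eval (m : ℝ)| ≤ N / 2

/-- **From families of small energy to the neighbourhoods of the values of real polynomials**, for laws about families with
members `|s m| ≤ N`. -/
theorem log_near_half (d : ℕ) (hd : 1 ≤ d) : ∃ p : ℕ, 1 ≤ p ∧ ∀ (C W U : ℕ) {Θ : Type} (adm : ℕ → Θ → Prop)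
    (Bad : ℕ → Θ → ℤ → Prop) (N₁ : ℕ),
      (∀ N : ℕ, N₁ ≤ N → ∀ θ, adm N θ → ∀ (x : ℕ) (s : ℕ → ℤ), (∀ m ∈ Icc 1 x, |s m| ≤ N) →
        (energy p x s : ℝ) * N ≤ Real.log N ^ (6 * C + 2 * W + 1) * (x : ℝ) ^ (2 * p) →
        ∀ S ⊆ Icc 1 x, (∀ m ∈ S, Bad N θ (s m)) → (S.card : ℝ) ≤ x / Real.log N ^ (U + W + 1)) →
      ∃ N₀ : ℕ, ∀ N : ℕ, N₀ ≤ N → ∀ θ, adm N θ → ∀ (x : ℕ) (f : ℝ[X]), NorH d C N x f →
        ∀ S ⊆ Icc 1 x, (∀ m ∈ S, ∃ b : ℤ, |(b : ℝ) - f.eval (m : ℝ)| ≤ Real.log N ^ W ∧ Bad N θ b) →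
        (S.card : ℝ) ≤ x / Real.log N ^ U := by
  classical
  obtain ⟨K, p, hK, hp, h1⟩ := energy_real d hd
  refine ⟨p, hp, fun C W U Θ adm Bad N₁ hlaw => ?_⟩
  obtain ⟨n1, hn1⟩ := ev_log (9 * K * p ^ 2 + 7)
  obtain ⟨n2, hn2⟩ := ev_pow_log (W + 2)
  refine ⟨N₁ + n1 + n2 + 1, fun N hN θ hθ x f hf S hSx hS => ?_⟩
  have hL := hn1 N (by omega)
  have hLW := hn2 N (by omega)
  have hN1 : 1 ≤ N := by omega
  have hN0 : (0 : ℝ) < N := by exact_mod_cast hN1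
  obtain ⟨L, hLd⟩ : ∃ L, L = Real.log (N : ℝ) := ⟨_, rfl⟩
  rw [← hLd] at hL hLW hS ⊢
  have hKp : (0 : ℝ) ≤ 9 * K * p ^ 2 := by positivity
  have hL7 : 7 ≤ L := by linarith
  have hLK : 9 * K * p ^ 2 ≤ L := by linarith
  have hL0 : 0 < L := by linarith
  have hL1 : 1 ≤ L := by linarith
  obtain ⟨t, ht⟩ : ∃ t, t = L ^ W := ⟨_, rfl⟩
  have ht1 : 1 ≤ t := by rw [ht]; exact one_le_pow₀ hL1
  have ht0 : 0 < t := by linarith
  have hLt : 7 * t ≤ L * t := mul_le_mul_of_nonneg_right hL7 ht0.le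
  have hLWt : L ^ (W + 2) = L * (L * t) := by rw [pow_add, ht]; ring
  rw [hLWt] at hLW
  have hLLt : 7 * (7 * t) ≤ L * (L * t) := mul_le_mul hL7 hLt (by positivity) hL0.le
  rw [← ht] at hS
  have hLC : 1 ≤ L ^ C := one_le_pow₀ hL1
  have hf' := hf
  obtain ⟨hf0, hf1, hf2, hf3, hf4⟩ := hf'
  rw [← hLd] at hf1 hf2 hf3
  have hx0 : 1 ≤ x := by
    by_contra hcon
    have h2 : x = 0 := by omega
    rw [h2, Nat.cast_zero, zero_pow (by omega), mul_zero] at hf3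
    linarith
  have hfl : ∀ y : ℝ, |((⌊y⌋ : ℤ) : ℝ) - y| ≤ 1 := by
    intro y
    have h7 := Int.floor_le y
    have h8 := Int.lt_floor_add_one y
    rw [abs_le]
    constructor <;> linarith
  obtain ⟨M, hM⟩ : ∃ M : ℕ, M = ⌊t⌋₊ + 1 := ⟨_, rfl⟩
  have hMt : (M : ℝ) ≤ t + 1 := by
    rw [hM]; push_cast
    have := Nat.floor_le ht0.le
    linarith
  have hfam : ∀ c ∈ Icc (-(M : ℤ)) M,
      (((Icc 1 x).filter (fun m : ℕ => Bad N θ (⌊f.eval (m : ℝ)⌋ + c))).card : ℝ) ≤ x / L ^ (U + W + 1) := by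
    intro c hc
    rw [mem_Icc] at hc
    have hc1 : |(c : ℝ)| ≤ t + 1 := by
      rw [abs_le]
      have h2 : (-(M : ℝ)) ≤ c := by exact_mod_cast hc.1
      have h3 : (c : ℝ) ≤ M := by exact_mod_cast hc.2
      constructor <;> linarith
    rw [hLd]
    apply hlaw N (by omega) θ hθ x (fun m => ⌊f.eval (m : ℝ)⌋ + c) _ _ _ (filter_subset _ _)
    · intro m hm
      rw [mem_filter] at hm
      exact hm.2
    · intro m hm
      have h2 := hf4 m hm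
      have h3 := hfl (f.eval (m : ℝ))
      have h4 : |((⌊f.eval (m : ℝ)⌋ : ℤ) : ℝ) + c| ≤ N := by
        have h5 : |((⌊f.eval (m : ℝ)⌋ : ℤ) : ℝ) + c| ≤ |((⌊f.eval (m : ℝ)⌋ : ℤ) : ℝ) - f.eval (m : ℝ)| + |f.eval (m : ℝ)| + |(c : ℝ)| := by
          have e1 : ((⌊f.eval (m : ℝ)⌋ : ℤ) : ℝ) + c = (((⌊f.eval (m : ℝ)⌋ : ℤ) : ℝ) - f.eval (m : ℝ)) + f.eval (m : ℝ) + c := by ring
          rw [e1]
          refine (abs_add_le _ _).trans ?_
          have := abs_add_le (((⌊f.eval (m : ℝ)⌋ : ℤ) : ℝ) - f.eval (m : ℝ)) (f.eval (m : ℝ))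
          linarith
        have h6 : t + 2 ≤ N / 2 := by linarith
        linarith
      exact_mod_cast h4
    · have h2 := h1 x N hx0 hN1 (L ^ C) (t + 2) hLC (by linarith) hf3 f hf0 hf1 hf2 p le_rfl
        (fun i : Fin x => ⌊f.eval ((((i : ℕ) + 1 : ℕ)) : ℝ)⌋ + c) (by
          intro i
          have h3 := hfl (f.eval ((((i : ℕ) + 1 : ℕ)) : ℝ))
          push_cast at h3 ⊢
          have e1 : ((⌊f.eval (((i : ℕ) : ℝ) + 1)⌋ : ℤ) : ℝ) + c - f.eval (((i : ℕ) : ℝ) + 1) =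
            (((⌊f.eval (((i : ℕ) : ℝ) + 1)⌋ : ℤ) : ℝ) - f.eval (((i : ℕ) : ℝ) + 1)) + c := by ring
          rw [e1]
          refine (abs_add_le _ _).trans ?_
          linarith)
      have h3 := energy_le_En' p x (fun m => ⌊f.eval (m : ℝ)⌋ + c)
      have h3' : (energy p x (fun m => ⌊f.eval (m : ℝ)⌋ + c) : ℝ) ≤
          En p (fun i : Fin x => ⌊f.eval ((((i : ℕ) + 1 : ℕ)) : ℝ)⌋ + c) := by exact_mod_cast h3
      rw [← hLd]
      calc (energy p x (fun m => ⌊f.eval (m : ℝ)⌋ + c) : ℝ) * N ≤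
            (En p (fun i : Fin x => ⌊f.eval ((((i : ℕ) + 1 : ℕ)) : ℝ)⌋ + c) : ℝ) * N :=
            mul_le_mul_of_nonneg_right h3' hN0.le
        _ ≤ (K * p ^ 2 * (t + 2) ^ 2 * (L ^ C) ^ 6) * (x : ℝ) ^ (2 * p) := h2
        _ ≤ (K * p ^ 2 * (3 * t) ^ 2 * (L ^ C) ^ 6) * (x : ℝ) ^ (2 * p) := by gcongr; linarith
        _ = (9 * K * p ^ 2) * (t ^ 2 * (L ^ C) ^ 6) * (x : ℝ) ^ (2 * p) := by ring
        _ ≤ L * (t ^ 2 * (L ^ C) ^ 6) * (x : ℝ) ^ (2 * p) := by gcongr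
        _ = L ^ (6 * C + 2 * W + 1) * (x : ℝ) ^ (2 * p) := by
            rw [ht, ← pow_mul, ← pow_mul]
            ring
  have hsub : S ⊆ (Icc (-(M : ℤ)) M).biUnion (fun c => (Icc 1 x).filter (fun m : ℕ => Bad N θ (⌊f.eval (m : ℝ)⌋ + c))) := by
    intro m hm
    obtain ⟨b, hk1, hk2⟩ := hS m hm
    rw [mem_biUnion]
    have h7 := Int.floor_le (f.eval (m : ℝ))
    have h8 := Int.lt_floor_add_one (f.eval (m : ℝ))
    have h9 := abs_le.1 hk1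
    have hfl1 : t < (⌊t⌋₊ : ℝ) + 1 := Nat.lt_floor_add_one t
    refine ⟨b - ⌊f.eval (m : ℝ)⌋, ?_, ?_⟩
    · rw [mem_Icc, hM]
      constructor
      · have h10 : -((⌊t⌋₊ : ℝ) + 1 + 1) < (b : ℝ) - ⌊f.eval (m : ℝ)⌋ := by linarith [h9.1]
        have h11 : -((⌊t⌋₊ : ℤ) + 1 + 1) < b - ⌊f.eval (m : ℝ)⌋ := by exact_mod_cast h10
        push_cast
        omega
      · have h10 : (b : ℝ) - ⌊f.eval (m : ℝ)⌋ < (⌊t⌋₊ : ℝ) + 1 + 1 := by linarith [h9.2]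
        have h11 : b - ⌊f.eval (m : ℝ)⌋ < (⌊t⌋₊ : ℤ) + 1 + 1 := by exact_mod_cast h10
        push_cast
        omega
    · rw [mem_filter]
      have e1 : ⌊f.eval (m : ℝ)⌋ + (b - ⌊f.eval (m : ℝ)⌋) = b := by ring
      rw [e1]
      exact ⟨hSx hm, hk2⟩
  have h2 := (card_le_card hsub).trans card_biUnion_le
  have h3 : (S.card : ℝ) ≤ ∑ c ∈ Icc (-(M : ℤ)) M,
      (((Icc 1 x).filter (fun m : ℕ => Bad N θ (⌊f.eval (m : ℝ)⌋ + c))).card : ℝ) := by exact_mod_cast h2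
  refine h3.trans ((sum_le_sum hfam).trans ?_)
  rw [sum_const, Int.card_Icc, nsmul_eq_mul]
  have h4 : ((M : ℤ) + 1 - -(M : ℤ)).toNat = 2 * M + 1 := by omega
  rw [h4]
  have h5 : ((2 * M + 1 : ℕ) : ℝ) ≤ L * t := by push_cast; linarith
  have hx0' : (0 : ℝ) ≤ x := Nat.cast_nonneg _
  calc ((2 * M + 1 : ℕ) : ℝ) * (x / L ^ (U + W + 1)) ≤ (L * t) * (x / L ^ (U + W + 1)) :=
        mul_le_mul_of_nonneg_right h5 (by positivity)
    _ = x / L ^ U := by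
        rw [ht, pow_add, pow_add, pow_one]
        field_simp

end Pool.Agent.U471.RP
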