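import Pool.Agent.U471.RP.Prod
import Pool.Agent.TH935.TF9
import Pool.Agent.TH823.Fam.Fam1

set_option autoImplicit false

/-!
Joint correlations of the von Mangoldt and Liouville functions with all the shifts near values of real polynomials.
-/

namespace Pool.Agent.U471.RP

open Finset Polynomial
open Pool.Agent.TH935.GF (En)
open Pool.Agent.H373R2.T7 (exI liR liR_norm sup_liou energy ev_L' lamI)
open Pool.Agent.TH935.TF

/-- counting by fibres in one coordinate -/
lemma card_fib {k : ℕ} (x : Fin k → ℕ) (j : Fin k) (S : Finset (Fin k → ℕ))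
    (hS : S ⊆ Fintype.piFinset (fun i => Icc 1 (x i))) (c : ℝ) (hc : 0 ≤ c)
    (h : ∀ q ∈ S, (((Icc 1 (x j)).filter (fun m => Function.update q j m ∈ S)).card : ℝ) ≤ x j * c) :
    (S.card : ℝ) ≤ (∏ i, (x i : ℝ)) * c := by
  classical
  obtain ⟨π, hπ⟩ : ∃ π : (Fin k → ℕ) → (Fin k → ℕ), π = fun q => Function.update q j 0 := ⟨_, rfl⟩
  obtain ⟨I, hI⟩ : ∃ I, I = S.image π := ⟨_, rfl⟩
  have h1 : S.card = ∑ r ∈ I, (S.filter (fun q => π q = r)).card := by
    rw [hI]
    exact card_eq_sum_card_image π S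
  have h2 : ∀ r ∈ I, ((S.filter (fun q => π q = r)).card : ℝ) ≤ x j * c := by
    intro r hr
    rw [hI, mem_image] at hr
    obtain ⟨q, hq, rfl⟩ := hr
    refine le_trans ?_ (h q hq)
    rw [Nat.cast_le]
    have hupd : ∀ q' ∈ S.filter (fun q' => π q' = π q), q' = Function.update q j (q' j) := by
      intro q' hq'
      have h3 := (mem_filter.1 hq').2
      funext i
      by_cases hi : i = j
      · subst hi
        rw [Function.update_self]
      · rw [Function.update_of_ne hi]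
        have h4 := congrFun h3 i
        rw [hπ] at h4
        simp only [Function.update_of_ne hi] at h4
        exact h4
    apply card_le_card_of_injOn (fun q' => q' j)
    · intro q' hq'
      have h3 := hupd q' hq'
      have h4 := (mem_filter.1 hq').1
      simp only [coe_filter, Set.mem_ofPred_eq]
      refine ⟨Fintype.mem_piFinset.1 (hS h4) j, ?_⟩
      rw [← h3]
      exact h4
    · intro q1 hq1 q2 hq2 h12
      rw [hupd q1 hq1, hupd q2 hq2]
      simp only at h12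
      rw [h12]
  have h3 : (I.card : ℝ) * x j ≤ ∏ i, (x i : ℝ) := by
    have h4 : I ⊆ Fintype.piFinset (fun i => if i = j then ({0} : Finset ℕ) else Icc 1 (x i)) := by
      intro r hr
      rw [hI, mem_image] at hr
      obtain ⟨q, hq, rfl⟩ := hr
      rw [Fintype.mem_piFinset]
      intro i
      rw [hπ]
      simp only
      by_cases hi : i = j
      · subst hi
        rw [Function.update_self, if_pos rfl]
        exact mem_singleton_self 0
      · rw [Function.update_of_ne hi, if_neg hi]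
        exact Fintype.mem_piFinset.1 (hS hq) i
    have h5 : I.card ≤ ∏ i, (if i = j then 1 else x i) := by
      refine (card_le_card h4).trans (le_of_eq ?_)
      rw [Fintype.card_piFinset]
      apply prod_congr rfl
      intro i _
      split_ifs
      · exact card_singleton 0
      · rw [Nat.card_Icc]; omega
    have h6 : (∏ i, (if i = j then 1 else x i)) * x j = ∏ i, x i := by
      rw [← mul_prod_erase univ (fun i => if i = j then 1 else x i) (mem_univ j),
        ← mul_prod_erase univ x (mem_univ j), if_pos rfl, one_mul, mul_comm]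
      congr 1
      apply prod_congr rfl
      intro i hi
      rw [if_neg (mem_erase.1 hi).1]
    have h7 : I.card * x j ≤ ∏ i, x i := by
      rw [← h6]
      exact Nat.mul_le_mul_right _ h5
    exact_mod_cast h7
  rw [h1]
  push_cast
  refine (sum_le_sum h2).trans ?_
  rw [sum_const, nsmul_eq_mul, ← mul_assoc]
  exact mul_le_mul_of_nonneg_right h3 hc

/-- counting by the first coordinates -/
lemma card_proj {k l : ℕ} (x : Fin (k + l) → ℕ) (S : Finset (Fin (k + l) → ℕ))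
    (hS : S ⊆ Fintype.piFinset (fun i => Icc 1 (x i))) (T : Finset (Fin k → ℕ))
    (hT : ∀ q ∈ S, (fun i => q (Fin.castAdd l i)) ∈ T) : S.card ≤ T.card * ∏ j, x (Fin.natAdd k j) := by
  classical
  have h1 : S.card ≤ (T ×ˢ Fintype.piFinset (fun j => Icc 1 (x (Fin.natAdd k j)))).card := by
    apply card_le_card_of_injOn (fun q => ((fun i => q (Fin.castAdd l i)), (fun j => q (Fin.natAdd k j))))
    · intro q hq
      rw [mem_coe, mem_product]
      refine ⟨hT q hq, ?_⟩
      rw [Fintype.mem_piFinset]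
      intro j
      exact Fintype.mem_piFinset.1 (hS hq) _
    · intro q1 _ q2 _ h12
      simp only [Prod.mk.injEq] at h12
      funext i
      refine Fin.addCases (fun i => ?_) (fun i => ?_) i
      · exact congrFun h12.1 i
      · exact congrFun h12.2 i
  refine h1.trans (le_of_eq ?_)
  rw [card_product, Fintype.card_piFinset]
  congr 1
  apply prod_congr rfl
  intro j _
  rw [Nat.card_Icc]; omega

/-- uniformity in further data: the choice of the worst data -/
theorem near_par {Θ : Type} (k : ℕ) (d : Fin k → ℕ) (hd : ∀ i, 1 ≤ d i) (C W U B : ℕ) (hB : 2 ≤ B)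
    (Q : ℕ → Θ → Prop) (P : ℕ → Θ → (Fin k → ℤ) → Prop)
    (H : ∀ h C U : ℕ, 1 ≤ h → ∃ N₀ : ℕ, ∀ N : ℕ, N₀ ≤ N → ∀ θ : Θ, Q N θ → ∀ (x : Fin k → ℕ) (s : Fin k → ℕ → ℤ),
      (∀ i, ∀ j ∈ Icc 1 (x i), |s i j| ≤ B * N) →
      (∀ i, (energy h (x i) (s i) : ℝ) * N ≤ Real.log N ^ C * (x i : ℝ) ^ (2 * h)) →
      ∀ 𝒮 : Finset (Fin k → ℕ), 𝒮 ⊆ Fintype.piFinset (fun i => Icc 1 (x i)) →
      (∀ q ∈ 𝒮, ¬ P N θ (fun i => s i (q i))) → (𝒮.card : ℝ) ≤ (∏ i, (x i : ℝ)) / Real.log N ^ U) :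
    ∃ N₀ : ℕ, ∀ N : ℕ, N₀ ≤ N → ∀ θ : Θ, Q N θ → ∀ (X : Fin k → ℕ) (f : Fin k → ℝ[X]), (∀ i, Nor (d i) C N (X i) (f i)) →
      ∀ S ⊆ Fintype.piFinset (fun i => Icc 1 (X i)), (∀ n ∈ S, ∃ c : Fin k → ℤ,
        (∀ i, |(c i : ℝ) - (f i).eval (n i : ℝ)| ≤ Real.log N ^ W) ∧ ¬ P N θ c) →
      (S.card : ℝ) ≤ (∏ i, (X i : ℝ)) / Real.log N ^ U := by
  classical
  obtain ⟨Bad, hBad⟩ : ∃ Bad : ℕ → Θ → Prop, Bad = fun N θ => Q N θ ∧ ∃ (X : Fin k → ℕ) (f : Fin k → ℝ[X]),
      (∀ i, Nor (d i) C N (X i) (f i)) ∧ ∃ S ⊆ Fintype.piFinset (fun i => Icc 1 (X i)), (∀ n ∈ S, ∃ c : Fin k → ℤ,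
        (∀ i, |(c i : ℝ) - (f i).eval (n i : ℝ)| ≤ Real.log N ^ W) ∧ ¬ P N θ c) ∧
      ¬ (S.card : ℝ) ≤ (∏ i, (X i : ℝ)) / Real.log N ^ U := ⟨_, rfl⟩
  have hBad' : ∀ N θ, Bad N θ → Q N θ ∧ ∃ (X : Fin k → ℕ) (f : Fin k → ℝ[X]),
      (∀ i, Nor (d i) C N (X i) (f i)) ∧ ∃ S ⊆ Fintype.piFinset (fun i => Icc 1 (X i)), (∀ n ∈ S, ∃ c : Fin k → ℤ,
        (∀ i, |(c i : ℝ) - (f i).eval (n i : ℝ)| ≤ Real.log N ^ W) ∧ ¬ P N θ c) ∧
      ¬ (S.card : ℝ) ≤ (∏ i, (X i : ℝ)) / Real.log N ^ U := by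
    intro N θ h
    rw [hBad] at h
    exact h
  obtain ⟨N₀, h0⟩ := near_prod k d hd C W U B hB
    (fun N β => ∀ hN : ∃ θ, Bad N θ, P N (Classical.choose hN) β) (by
      intro h C' U' hh
      refine transferP (k := k) h B C' U' (fun N β => ∀ hN : ∃ θ, Bad N θ, P N (Classical.choose hN) β) ?_
      obtain ⟨N₀, h1⟩ := H h C' U' hh
      refine ⟨N₀, fun N hN x s hs hE 𝒮 hSx hS => ?_⟩
      by_cases hex : ∃ θ, Bad N θ
      · refine h1 N hN (Classical.choose hex) ?_ x s hs hE 𝒮 hSx (fun q hq hc => hS q hq (fun _ => hc))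
        exact (hBad' _ _ (Classical.choose_spec hex)).1
      · have he : 𝒮 = ∅ := by
          rw [eq_empty_iff_forall_notMem]
          intro q hq
          exact hS q hq (fun hN => absurd hN hex)
        rw [he, card_empty, Nat.cast_zero]
        apply div_nonneg (prod_nonneg fun i _ => Nat.cast_nonneg _)
        exact pow_nonneg (Real.log_natCast_nonneg N) _)
  refine ⟨N₀, fun N hN θ hθ X f hf S hSX hS => ?_⟩
  by_contra hcon
  have hex : ∃ θ, Bad N θ := by
    refine ⟨θ, ?_⟩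
    rw [hBad]
    exact ⟨hθ, X, f, hf, S, hSX, hS, hcon⟩
  obtain ⟨_, X', f', hf', S', hS'X, hS', hcon'⟩ := hBad' _ _ (Classical.choose_spec hex)
  apply hcon'
  refine h0 N hN X' f' hf' S' hS'X (fun n hn => ?_)
  obtain ⟨c, hc1, hc2⟩ := hS' n hn
  exact ⟨c, hc1, fun hall => hc2 (hall hex)⟩

end Pool.Agent.U471.RP
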