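import Pool.Agent.U471.RP.Prod
import Pool.Agent.R459.Nbhd

set_option autoImplicit false

/-!
Goldbach pairs in all windows for all the even multiples of all the integers near almost all the values of a real polynomial.
-/

namespace Pool.Agent.U471.RP

open Finset Polynomial
open Pool.Agent.TH935.GF (En)

lemma En_scale (h : ℕ) {ι : Type} [Fintype ι] (v : ι → ℤ) (j : ℤ) (hj : j ≠ 0) :
    En h (fun i => j * v i) = En h v := by
  unfold En
  apply Nat.card_congr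
  apply Equiv.subtypeEquivRight
  intro q
  rw [← mul_sum, ← mul_sum]
  exact ⟨fun h => mul_left_cancel₀ hj h, fun h => by rw [h]⟩

theorem mult_real (d A C T W U m₀ : ℕ) (hd : 1 ≤ d) (ε : ℝ) (hε : 0 < ε) (P : ℕ → Prop)
    (hP : ∀ m : ℕ, m₀ ≤ m → 2 ∣ m → Pool.Agent.W93.PG.WinP ε A m → P m) :
    ∃ N₀ : ℕ, ∀ N : ℕ, N₀ ≤ N → ∀ (x : ℕ) (f : ℝ[X]), Nor d C N x f → ∀ S ⊆ Icc 1 x,
      (∀ m ∈ S, ∃ q j : ℕ, 0 < q ∧ |(q : ℝ) - f.eval (m : ℝ)| ≤ Real.log N ^ W ∧ 1 ≤ j ∧ (j : ℝ) ≤ Real.log N ^ T ∧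
        Even (q * j) ∧ ¬ P (q * j)) → (S.card : ℝ) ≤ x / Real.log N ^ U := by
  classical
  obtain ⟨p, hp, hen⟩ := energy_nor d hd
  obtain ⟨N3, h3⟩ := hen C p le_rfl
  obtain ⟨N1, h1⟩ := Pool.Agent.R459.near_even p A 1 (6 * C + 1 + T) (W + 1 + T) (U + T) m₀ hp ε hε P hP
  obtain ⟨N2, h2⟩ := Pool.Agent.H373R2.T7.ev_L' 2
  refine ⟨N1 + N2 + N3 + 1, fun N hN x f hf S0 hSx hS0 => ?_⟩
  have hL := h2 N (by omega)
  have hN0 : (0 : ℝ) < N := by exact_mod_cast (by omega : 0 < N)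
  obtain ⟨v, hv⟩ : ∃ v : Fin x → ℤ, v = fun i : Fin x => ⌊f.eval (((i : ℕ) + 1 : ℕ) : ℝ)⌋ := ⟨_, rfl⟩
  have hv1 : ∀ i, |(v i : ℝ) - f.eval (((i : ℕ) + 1 : ℕ) : ℝ)| ≤ 1 := by
    intro i
    rw [hv]
    simp only
    have h7 := Int.floor_le (f.eval (((i : ℕ) + 1 : ℕ) : ℝ))
    have h8 := Int.lt_floor_add_one (f.eval (((i : ℕ) + 1 : ℕ) : ℝ))
    rw [abs_le]
    constructor <;> linarith
  obtain ⟨hx1, hE⟩ := h3 N (by omega) x f hf v hv1
  have hvN : ∀ i, v i ≤ N := by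
    intro i
    have h7 := hf.size ((i : ℕ) + 1) (by rw [mem_Icc]; exact ⟨by omega, by have := i.2; omega⟩)
    have h8 : (v i : ℝ) ≤ N := by
      rw [hv]
      simp only
      exact (Int.floor_le _).trans ((le_abs_self _).trans h7)
    exact_mod_cast h8
  obtain ⟨L, hLd⟩ : ∃ L, L = Real.log (N : ℝ) := ⟨_, rfl⟩
  rw [← hLd] at hL hE hS0 ⊢
  have hL0 : 0 < L := by linarith
  have hL1 : 1 ≤ L := by linarith
  obtain ⟨J, hJ⟩ : ∃ J : ℕ, J = ⌊L ^ T⌋₊ := ⟨_, rfl⟩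
  have hJL : (J : ℝ) ≤ L ^ T := by rw [hJ]; exact Nat.floor_le (by positivity)
  obtain ⟨S, hS⟩ : ∃ S : ℕ → Finset (Fin x), S = fun j : ℕ => univ.filter (fun i => ∃ m : ℕ, 0 < m ∧ Even m ∧
    |(((m : ℤ) - (j : ℤ) * v i : ℤ) : ℝ)| ≤ L ^ (W + 1 + T) ∧ ¬ P m) := ⟨_, rfl⟩
  have hcard : ∀ j ∈ Icc 1 J, ((S j).card : ℝ) ≤ Fintype.card (Fin x) / L ^ (U + T) := by
    intro j hj
    rw [mem_Icc] at hj
    have hjr : (1 : ℝ) ≤ j := by exact_mod_cast hj.1
    have hjJ : (j : ℝ) ≤ L ^ T := le_trans (by exact_mod_cast hj.2) hJL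
    have hlog : L ≤ Real.log ((j * N : ℕ) : ℝ) := by
      rw [hLd]
      apply Real.log_le_log hN0
      push_cast
      nlinarith
    have key := h1 (j * N) (by nlinarith [hj.1]) (Fin x) (fun i => (j : ℤ) * v i) (by
      intro i
      have h3 := hvN i
      push_cast
      have h4 : (0 : ℤ) ≤ j := Nat.cast_nonneg _
      nlinarith) (by
      rw [En_scale p v j (by exact_mod_cast (by omega : j ≠ 0)), Fintype.card_fin]
      push_cast
      calc (En p v : ℝ) * (j * N) = j * ((En p v : ℝ) * N) := by ring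
        _ ≤ L ^ T * (L ^ (6 * C + 1) * (x : ℝ) ^ (2 * p)) := mul_le_mul hjJ hE (by positivity) (by positivity)
        _ = L ^ (6 * C + 1 + T) * (x : ℝ) ^ (2 * p) := by ring
        _ ≤ Real.log ((j : ℝ) * N) ^ (6 * C + 1 + T) * (x : ℝ) ^ (2 * p) := by
            apply mul_le_mul_of_nonneg_right _ (by positivity)
            push_cast at hlog
            exact pow_le_pow_left₀ hL0.le hlog _) (S j) (by
      intro i hi
      rw [hS] at hi
      simp only [mem_filter] at hi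
      obtain ⟨_, m, hm1, hm2, hm3, hm4⟩ := hi
      exact ⟨m, hm1, hm2, hm3.trans (pow_le_pow_left₀ hL0.le hlog _), hm4⟩)
    refine key.trans ?_
    exact div_le_div_of_nonneg_left (Nat.cast_nonneg _) (by positivity) (pow_le_pow_left₀ hL0.le hlog _)
  obtain ⟨S', hS'⟩ : ∃ S' : Finset (Fin x), S' = univ.filter (fun i : Fin x => (i : ℕ) + 1 ∈ S0) := ⟨_, rfl⟩
  have hsub : S' ⊆ (Icc 1 J).biUnion S := by
    intro i hi
    rw [hS', mem_filter] at hi
    obtain ⟨q, j, hq, hqv, hj1, hjL, hev, hP'⟩ := hS0 _ hi.2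
    have hjJ : j ≤ J := by
      rw [hJ]
      exact Nat.le_floor hjL
    rw [mem_biUnion]
    refine ⟨j, mem_Icc.2 ⟨hj1, hjJ⟩, ?_⟩
    rw [hS]
    simp only [mem_filter, mem_univ, true_and]
    refine ⟨q * j, Nat.mul_pos hq hj1, hev, ?_, hP'⟩
    have e : (((((q * j : ℕ) : ℤ) - (j : ℤ) * v i : ℤ)) : ℝ) = j * ((q : ℝ) - v i) := by
      push_cast
      ring
    have h9 : |(q : ℝ) - v i| ≤ L ^ (W + 1) := by
      have e1 : (q : ℝ) - v i = ((q : ℝ) - f.eval (((i : ℕ) + 1 : ℕ) : ℝ)) - ((v i : ℝ) - f.eval (((i : ℕ) + 1 : ℕ) : ℝ)) := by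
        ring
      rw [e1]
      refine (abs_sub _ _).trans ?_
      have h10 : 1 ≤ L ^ W := one_le_pow₀ hL1
      have h11 := hv1 i
      rw [pow_succ]
      nlinarith
    rw [e, abs_mul, Nat.abs_cast, pow_add, mul_comm]
    exact mul_le_mul h9 hjL (Nat.cast_nonneg _) (by positivity)
  have hcardS : S0.card = S'.card := by
    symm
    rw [hS']
    apply card_bij (fun (i : Fin x) _ => (i : ℕ) + 1)
    · intro i hi
      exact (mem_filter.1 hi).2
    · intro i _ j _ h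
      apply Fin.ext
      omega
    · intro n hn
      have h7 := mem_Icc.1 (hSx hn)
      refine ⟨⟨n - 1, by omega⟩, ?_, ?_⟩
      · rw [mem_filter]
        refine ⟨mem_univ _, ?_⟩
        simp only
        have : n - 1 + 1 = n := by omega
        rw [this]
        exact hn
      · simp only
        omega
  have h5 := (card_le_card hsub).trans card_biUnion_le
  have h6 : (S0.card : ℝ) ≤ ∑ j ∈ Icc 1 J, ((S j).card : ℝ) := by
    rw [hcardS]
    exact_mod_cast h5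
  refine h6.trans ((sum_le_card_nsmul _ _ _ hcard).trans ?_)
  rw [Nat.card_Icc, Nat.add_sub_cancel, nsmul_eq_mul, Fintype.card_fin]
  calc (J : ℝ) * (x / L ^ (U + T)) ≤ L ^ T * (x / L ^ (U + T)) :=
        mul_le_mul_of_nonneg_right hJL (by positivity)
    _ = x / L ^ U := by
        rw [pow_add]
        field_simp

end Pool.Agent.U471.RP
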