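import Pool.Agent.U471.RP.Energy
import Pool.Agent.Y834.CD.Main

set_option autoImplicit false

/-!
Products of translates of Fourier uniform functions, for all the translates near almost all vectors of values of real
polynomials.
-/

namespace Pool.Agent.U471.RP

open Finset Polynomial
open Pool.Agent.TH935.GF (En)
open Pool.Agent.Y834.CD (en es finite_form exists_par)

lemma en_eq (t : ℕ) {L : ℕ} (a : Fin L → ℤ) : en t a = En t a := by
  classical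
  unfold en En
  rw [Nat.card_eq_fintype_card, Fintype.card_subtype]

/-- the real polynomials, with constant bounds -/
structure NorC (d B N W L : ℕ) (f : ℝ[X]) : Prop where
  degree : f.natDegree ≤ d
  lower : 1 / (B : ℝ) ≤ f.coeff d
  upper : f.coeff d ≤ B
  length : N ≤ B * L ^ d
  values : ∀ n ∈ Icc 1 L, |f.eval (n : ℝ)| + W + 1 ≤ N

theorem cd_real (k : ℕ) (d : Fin k → ℕ) (hd : ∀ i, 1 ≤ d i) (B W : ℕ) {ε : ℝ} (hε : 0 < ε) :
    ∃ ε₁ : ℝ, 0 < ε₁ ∧ ∀ N : ℕ, 1 ≤ N → ∀ (g : Fin k → ℤ → ℝ) (δ : Fin k → ℝ),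
      (∀ l n, 0 ≤ g l n ∧ g l n ≤ 1) → (∀ l, 0 ≤ δ l ∧ δ l ≤ 1) →
      (∀ l α, ‖es (g l) (δ l) (3 * N) α‖ ≤ ε₁ * N) → ∀ (L : Fin k → ℕ) (f : Fin k → ℝ[X]),
      (∀ i, NorC (d i) B N W (L i) (f i)) → ∀ G : ℕ → ℝ, (∀ x, |G x| ≤ 1) →
      ∀ S : Finset (∀ i, Fin (L i)), (∀ u ∈ S, ∃ b : Fin k → ℤ,
        (∀ i, |(b i : ℝ) - (f i).eval ((((u i : ℕ) + 1 : ℕ)) : ℝ)| ≤ W) ∧
        ε * N < |∑ x ∈ Ioc N (2 * N), G x * (∏ l, g l (x + b l) - ∏ l, δ l)|) →
      (S.card : ℝ) ≤ ε * ∏ i, (L i : ℝ) := by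
  classical
  choose K p hK hp h1 using fun i => energy_real (d i) (hd i)
  obtain ⟨t, ht⟩ : ∃ t, t = ∑ i, p i := ⟨_, rfl⟩
  have htp : ∀ i, p i ≤ t := fun i => by
    rw [ht]; exact single_le_sum (f := p) (fun _ _ => Nat.zero_le _) (mem_univ i)
  obtain ⟨B', hB'⟩ : ∃ B' : ℝ, B' = max (B : ℝ) 1 := ⟨_, rfl⟩
  have hB1 : 1 ≤ B' := by rw [hB']; exact le_max_right _ _
  have hBB : (B : ℝ) ≤ B' := by rw [hB']; exact le_max_left _ _
  obtain ⟨C, hC⟩ : ∃ C : ℝ, C = ∑ i, ((K i : ℝ) * t ^ 2 * (W + 2) ^ 2 * B' ^ 6) := ⟨_, rfl⟩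
  have hC0 : 0 ≤ C := by rw [hC]; exact sum_nonneg fun i _ => by positivity
  have hCi : ∀ i, (K i : ℝ) * t ^ 2 * (W + 2) ^ 2 * B' ^ 6 ≤ C := fun i => by
    rw [hC]
    exact single_le_sum (f := fun i => (K i : ℝ) * t ^ 2 * (W + 2) ^ 2 * B' ^ 6)
      (fun i _ => by positivity) (mem_univ i)
  obtain ⟨M, hM⟩ : ∃ M : ℕ, M = (2 * (W + 1) + 1) ^ k := ⟨_, rfl⟩
  have hM1 : 1 ≤ M := by rw [hM]; exact Nat.one_le_pow _ _ (by omega)
  have hM0 : (0 : ℝ) < M := by exact_mod_cast hM1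
  have hM1r : (1 : ℝ) ≤ M := by exact_mod_cast hM1
  obtain ⟨η, hη⟩ : ∃ η : ℝ, η = ε / M := ⟨_, rfl⟩
  have hη0 : 0 < η := by rw [hη]; positivity
  have hηε : η ≤ ε := by rw [hη]; exact div_le_self hε.le hM1r
  obtain ⟨τ, ε₁, hτ, hε₁, hpar⟩ := exists_par k t hC0 hη0
  refine ⟨ε₁, hε₁, fun N hN g δ hg hδ hes L f hf G hG S hS => ?_⟩
  have hN0 : (0 : ℝ) < N := by exact_mod_cast hN
  have hfl : ∀ y : ℝ, |((⌊y⌋ : ℤ) : ℝ) - y| ≤ 1 := by
    intro y
    have h7 := Int.floor_le y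
    have h8 := Int.lt_floor_add_one y
    rw [abs_le]
    constructor <;> linarith
  -- the offsets
  obtain ⟨O, hO⟩ : ∃ O : Finset (Fin k → ℤ), O = Fintype.piFinset (fun _ => Icc (-((W : ℤ) + 1)) ((W : ℤ) + 1)) := ⟨_, rfl⟩
  have hOc : O.card = M := by
    rw [hO, Fintype.card_piFinset, prod_const, card_univ, Fintype.card_fin, Int.card_Icc, hM]
    congr 1
    omega
  have hbad : ∀ c ∈ O, ((((univ : Finset (∀ l, Fin (L l))).filter (fun v =>
      η * N < |∑ x ∈ Ioc N (2 * N), G x * (∏ l, g l (x + (⌊(f l).eval ((((v l : ℕ) + 1 : ℕ)) : ℝ)⌋ + c l)) -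
        ∏ l, δ l)|)).card : ℕ) : ℝ) ≤ η * ∏ l, (L l : ℝ) := by
    intro c hc
    have hcl : ∀ l, |(c l : ℝ)| ≤ W + 1 := by
      intro l
      rw [hO, Fintype.mem_piFinset] at hc
      have h2 := mem_Icc.1 (hc l)
      rw [abs_le]
      constructor
      · have : ((-((W : ℤ) + 1) : ℤ) : ℝ) ≤ c l := by exact_mod_cast h2.1
        push_cast at this; linarith
      · have : ((c l : ℤ) : ℝ) ≤ (((W : ℤ) + 1 : ℤ) : ℝ) := by exact_mod_cast h2.2
        push_cast at this; linarith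
    have key := finite_form (k := k) (t := t) (C := C) hτ hη0 hpar hN g δ hg hδ hes L
      (fun l (i : Fin (L l)) => ⌊(f l).eval ((((i : ℕ) + 1 : ℕ)) : ℝ)⌋ + c l) ?_ ?_ G hG
    · exact key
    · intro l i
      have hv := (hf l).values ((i : ℕ) + 1) (by rw [mem_Icc]; have := i.2; omega)
      have h2 := hfl ((f l).eval ((((i : ℕ) + 1 : ℕ)) : ℝ))
      -- the integer `⌊f⌋ + c` has absolute value at most `N`
      obtain ⟨y, hy⟩ : ∃ y, y = (f l).eval ((((i : ℕ) + 1 : ℕ)) : ℝ) := ⟨_, rfl⟩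
      rw [← hy] at hv h2 ⊢
      have h3 := Int.floor_le y
      have h4 := Int.lt_floor_add_one y
      have h5 := abs_le.1 (hcl l)
      have h6 := abs_le.1 (le_refl |y|)
      have h7 : (((⌊y⌋ + c l : ℤ)) : ℝ) ≤ N := by push_cast; linarith [h5.2, h6.2]
      have h8 : -((N : ℝ)) - 1 < (((⌊y⌋ + c l : ℤ)) : ℝ) := by push_cast; linarith [h5.1, h6.1]
      have h7' : ⌊y⌋ + c l ≤ (N : ℤ) := by exact_mod_cast h7
      have h8' : -(N : ℤ) - 1 < ⌊y⌋ + c l := by exact_mod_cast h8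
      rw [abs_le]
      constructor <;> omega
    · intro l
      rw [en_eq]
      have hL1 : 1 ≤ L l := by
        rcases Nat.eq_zero_or_pos (L l) with h0 | h0
        · have h2 := (hf l).length
          rw [h0, zero_pow (by have := hd l; omega), Nat.mul_zero] at h2
          omega
        · exact h0
      have hB0 : (0 : ℝ) < B := by
        have h2 := (hf l).length
        rcases Nat.eq_zero_or_pos B with h0 | h0
        · rw [h0, Nat.zero_mul] at h2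
          omega
        · exact_mod_cast h0
      have h2 := h1 l (L l) N hL1 hN B' (W + 2) hB1 (by have : (0 : ℝ) ≤ W := Nat.cast_nonneg _; linarith) (by
          have h3 : (N : ℝ) ≤ B * (L l : ℝ) ^ d l := by exact_mod_cast (hf l).length
          exact h3.trans (mul_le_mul_of_nonneg_right hBB (by positivity)))
        (f l) (hf l).degree (by
          refine le_trans ?_ (hf l).lower
          exact div_le_div_of_nonneg_left (by norm_num) hB0 hBB) ((hf l).upper.trans hBB) t (htp l)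
        (fun i : Fin (L l) => ⌊(f l).eval ((((i : ℕ) + 1 : ℕ)) : ℝ)⌋ + c l) (by
          intro i
          have h3 := hfl ((f l).eval ((((i : ℕ) + 1 : ℕ)) : ℝ))
          obtain ⟨y, hy⟩ : ∃ y, y = (f l).eval ((((i : ℕ) + 1 : ℕ)) : ℝ) := ⟨_, rfl⟩
          rw [← hy] at h3 ⊢
          have e1 : (((⌊y⌋ + c l : ℤ)) : ℝ) - y = (((⌊y⌋ : ℤ) : ℝ) - y) + c l := by push_cast; ring
          rw [e1]
          refine (abs_add_le _ _).trans ?_
          linarith [hcl l])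
      exact h2.trans (mul_le_mul_of_nonneg_right (hCi l) (by positivity))
  have hsub : S ⊆ O.biUnion (fun c => (univ : Finset (∀ l, Fin (L l))).filter (fun v =>
      η * N < |∑ x ∈ Ioc N (2 * N), G x * (∏ l, g l (x + (⌊(f l).eval ((((v l : ℕ) + 1 : ℕ)) : ℝ)⌋ + c l)) -
        ∏ l, δ l)|)) := by
    intro u hu
    obtain ⟨b, hb1, hb2⟩ := hS u hu
    rw [mem_biUnion]
    refine ⟨fun l => b l - ⌊(f l).eval ((((u l : ℕ) + 1 : ℕ)) : ℝ)⌋, ?_, ?_⟩
    · rw [hO, Fintype.mem_piFinset]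
      intro l
      have h2 := hb1 l
      obtain ⟨y, hy⟩ : ∃ y, y = (f l).eval ((((u l : ℕ) + 1 : ℕ)) : ℝ) := ⟨_, rfl⟩
      rw [← hy] at h2 ⊢
      have h3 := Int.floor_le y
      have h4 := Int.lt_floor_add_one y
      have h5 := abs_le.1 h2
      have h6 : (((b l - ⌊y⌋ : ℤ)) : ℝ) < (((W : ℤ) + 1 + 1 : ℤ) : ℝ) := by push_cast; linarith [h5.2]
      have h7 : ((-((W : ℤ) + 1) - 1 : ℤ) : ℝ) < (((b l - ⌊y⌋ : ℤ)) : ℝ) := by push_cast; linarith [h5.1]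
      have h6' : b l - ⌊y⌋ < (W : ℤ) + 1 + 1 := by exact_mod_cast h6
      have h7' : -((W : ℤ) + 1) - 1 < b l - ⌊y⌋ := by exact_mod_cast h7
      rw [mem_Icc]
      constructor <;> omega
    · rw [mem_filter]
      refine ⟨mem_univ _, ?_⟩
      have e1 : ∀ (x : ℕ) (l : Fin k), (x : ℤ) + (⌊(f l).eval ((((u l : ℕ) + 1 : ℕ)) : ℝ)⌋ +
        (b l - ⌊(f l).eval ((((u l : ℕ) + 1 : ℕ)) : ℝ)⌋)) = x + b l := fun x l => by ring
      simp only [e1]
      refine lt_of_le_of_lt ?_ hb2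
      exact mul_le_mul_of_nonneg_right hηε hN0.le
  have h2 := (card_le_card hsub).trans card_biUnion_le
  calc (S.card : ℝ) ≤ ((∑ c ∈ O, ((univ : Finset (∀ l, Fin (L l))).filter (fun v =>
      η * N < |∑ x ∈ Ioc N (2 * N), G x * (∏ l, g l (x + (⌊(f l).eval ((((v l : ℕ) + 1 : ℕ)) : ℝ)⌋ + c l)) -
        ∏ l, δ l)|)).card : ℕ) : ℝ) := by exact_mod_cast h2
    _ ≤ ∑ c ∈ O, η * ∏ l, (L l : ℝ) := by
        rw [Nat.cast_sum]
        exact sum_le_sum hbad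
    _ = M * (η * ∏ l, (L l : ℝ)) := by rw [sum_const, hOc, nsmul_eq_mul]
    _ = ε * ∏ l, (L l : ℝ) := by rw [hη]; field_simp

end Pool.Agent.U471.RP
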