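import Pool.Agent.U471.RP.Joint

set_option autoImplicit false

/-!
Joint correlations of the von Mangoldt and Liouville functions with all the shifts near values of real polynomials:
the exceptional set for products of families of small energy.
-/

namespace Pool.Agent.U471.RP

open Finset Polynomial
open Pool.Agent.TH935.GF (En)
open Pool.Agent.H373R2.T7 (exI liR liR_norm sup_liou energy ev_L' lamI)
open Pool.Agent.TH935.TF

/-- correlations with the Liouville function in one coordinate of a product of families -/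
theorem lam_prod {k : ℕ} (j : Fin k) (h B C K V U : ℕ) : ∃ N₀ : ℕ, ∀ N : ℕ, N₀ ≤ N → ∀ (x : Fin k → ℕ) (s : Fin k → ℕ → ℤ),
    (∀ i, ∀ m ∈ Icc 1 (x i), |s i m| ≤ B * N) →
    (∀ i, (energy h (x i) (s i) : ℝ) * N ≤ Real.log N ^ C * (x i : ℝ) ^ (2 * h)) →
    ∀ 𝒮 : Finset (Fin k → ℕ), 𝒮 ⊆ Fintype.piFinset (fun i => Icc 1 (x i)) →
    ∀ L : ℕ, (L : ℝ) ≤ Real.log N ^ K → ∀ g : (Fin k → ℕ) → ℕ → ℕ → ℂ,
    (∀ q ∈ 𝒮, ∀ l < L, ∀ n, 1 ≤ n → n ≤ B * N → ‖g q l n‖ ≤ Real.log N ^ K) →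
    (∀ q m l n, g (Function.update q j m) l n = g q l n) →
    (∀ q ∈ 𝒮, ∃ l < L, ∃ y ≤ B * N, (N : ℝ) / Real.log N ^ V <
      ‖∑ n ∈ Icc 1 y, g q l n * exI liR ((n : ℤ) + s j (q j))‖) →
    (𝒮.card : ℝ) ≤ (∏ i, (x i : ℝ)) / Real.log N ^ U := by
  classical
  obtain ⟨N₁, h1⟩ := Pool.Agent.TH823.Fam.fam_all liR liR_norm sup_liou h B C K (U + V)
  obtain ⟨N₂, h2⟩ := ev_L' 1
  refine ⟨N₁ + N₂ + 3, fun N hN x s hs hE 𝒮 hSx L hL g hg hgu hS => ?_⟩
  have hlog := h2 N (by omega)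
  have hN0 : (0 : ℝ) < N := by exact_mod_cast (by omega : 0 < N)
  have hL0 : 0 < Real.log (N : ℝ) := by linarith
  rw [div_eq_mul_inv]
  apply card_fib x j 𝒮 hSx _ (by positivity)
  intro q hq
  rw [← div_eq_mul_inv]
  have h3 := h1 N (by omega) (x j) (s j) (hs j) (hE j) L hL (fun _ => 1) (g q) (fun _ _ => le_rfl)
    (fun l hl n hn1 hn2 => hg q hq l hl n hn1 (by simpa using hn2))
    (fun m => Function.update q j m ∈ 𝒮) (by
      intro m _ hm
      obtain ⟨l, hl, y, hy, h4⟩ := hS _ hm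
      refine ⟨l, hl, y, by simpa using hy, ?_⟩
      refine lt_of_le_of_lt ?_ (lt_of_lt_of_eq h4 ?_)
      · apply div_le_div_of_nonneg_left hN0.le (by positivity)
        exact pow_le_pow_right₀ hlog (by omega)
      · congr 1
        apply sum_congr rfl
        intro n _
        rw [hgu, Function.update_self, one_mul])
  refine h3.trans ?_
  apply div_le_div_of_nonneg_left (Nat.cast_nonneg _) (by positivity)
  exact pow_le_pow_right₀ hlog (by omega)

/-- the joint property: the asymptotic formula for the von Mangoldt function, and the correlations with at least one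
Liouville factor and the weights `θ t` -/
def PJ (k l B V N : ℕ) (θ : ℕ × (ℕ → ℕ → ℂ)) (β : Fin (k + l) → ℤ) : Prop :=
  (1 ≤ k → Adm (fun _ : Fin k => (1 : ℤ)) (fun i => β (Fin.castAdd l i)) →
    Dist (fun _ : Fin k => (1 : ℤ)) (fun i => β (Fin.castAdd l i)) →
    ∀ S : ℝ, Filter.Tendsto (fun z => Gz (om (fun _ : Fin k => (1 : ℤ)) (fun i => β (Fin.castAdd l i))) k z)
      Filter.atTop (nhds S) →
    ∀ y₁ y₂ : ℕ, y₁ ≤ y₂ → y₂ ≤ B * N →
    |∑ n ∈ Ioc y₁ y₂, ∏ i : Fin k, LL ((n : ℤ) + β (Fin.castAdd l i)) - S * ((y₂ : ℝ) - y₁)| ≤ N / Real.log N ^ V) ∧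
  ∀ J : Finset (Fin l), J.Nonempty → ∀ t < θ.1, ∀ y ≤ B * N,
    ‖∑ n ∈ Icc 1 y, θ.2 t n * (∏ i : Fin k, ((lamI ((n : ℤ) + β (Fin.castAdd l i)) : ℝ) : ℂ)) *
      ∏ j ∈ J, exI liR ((n : ℤ) + β (Fin.natAdd k j))‖ ≤ N / Real.log N ^ V

/-- the first part of the joint property -/
theorem fam_gg (k h B C V U : ℕ) (hk : 1 ≤ k) : ∃ N₀ : ℕ, ∀ N : ℕ, N₀ ≤ N → ∀ (x : Fin k → ℕ) (s : Fin k → ℕ → ℤ),
    (∀ i, ∀ m ∈ Icc 1 (x i), |s i m| ≤ B * N) →
    (∀ i, (energy h (x i) (s i) : ℝ) * N ≤ Real.log N ^ C * (x i : ℝ) ^ (2 * h)) →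
    ∀ 𝒮 : Finset (Fin k → ℕ), 𝒮 ⊆ Fintype.piFinset (fun i => Icc 1 (x i)) →
    (∀ q ∈ 𝒮, ¬ (Adm (fun _ : Fin k => (1 : ℤ)) (fun i => s i (q i)) →
    Dist (fun _ : Fin k => (1 : ℤ)) (fun i => s i (q i)) →
    ∀ S : ℝ, Filter.Tendsto (fun z => Gz (om (fun _ : Fin k => (1 : ℤ)) (fun i => s i (q i))) k z)
      Filter.atTop (nhds S) →
    ∀ y₁ y₂ : ℕ, y₁ ≤ y₂ → y₂ ≤ B * N →
    |∑ n ∈ Ioc y₁ y₂, ∏ i : Fin k, LL ((n : ℤ) + s i (q i)) - S * ((y₂ : ℝ) - y₁)| ≤ N / Real.log N ^ V)) →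
    (𝒮.card : ℝ) ≤ (∏ i, (x i : ℝ)) / Real.log N ^ U := by
  classical
  obtain ⟨X0, h0⟩ := gg_fam (dat_one k hk) h (C + 1) 0 (V + 1) U
  obtain ⟨n2, h2⟩ := ev_L' (B + 2)
  refine ⟨X0 + n2 + 3, fun N hN x s hs hE 𝒮 hSx hS => ?_⟩
  have hlog := h2 N (by omega)
  have hN0 : (0 : ℝ) < N := by exact_mod_cast (by omega : 0 < N)
  have hB0 : (0 : ℝ) ≤ B := Nat.cast_nonneg _
  obtain ⟨X, hX⟩ : ∃ X : ℕ, X = (B + 1) * N := ⟨_, rfl⟩
  have hNX : N ≤ X := by rw [hX, add_mul, one_mul]; omega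
  have hBX : B * N ≤ X := by rw [hX]; exact Nat.mul_le_mul_right _ (by omega)
  have hNX' : (N : ℝ) ≤ X := by exact_mod_cast hNX
  have hXr : (X : ℝ) = (B + 1) * N := by rw [hX]; push_cast; ring
  have hL0 : 0 < Real.log (N : ℝ) := by linarith
  have hLX : Real.log (N : ℝ) ≤ Real.log (X : ℝ) := Real.log_le_log hN0 hNX'
  have hLX1 : 1 ≤ Real.log (X : ℝ) := by linarith
  have h3 := h0 X (by omega) (B * N) (by rw [pow_zero, mul_one]; exact_mod_cast hBX) x s (by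
    intro i m hm
    refine (hs i m hm).trans ?_
    exact_mod_cast hBX) (by
    intro i
    calc (energy h (x i) (s i) : ℝ) * X = (B + 1) * ((energy h (x i) (s i) : ℝ) * N) := by rw [hXr]; ring
      _ ≤ Real.log X * (Real.log X ^ C * (x i : ℝ) ^ (2 * h)) := by
          apply mul_le_mul (by linarith) _ (by positivity) (by linarith)
          refine (hE i).trans ?_
          apply mul_le_mul_of_nonneg_right _ (by positivity)
          exact pow_le_pow_left₀ hL0.le hLX C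
      _ = _ := by rw [pow_succ]; ring) 𝒮 hSx (by
    intro q hq hG
    apply hS q hq
    intro hA hD S hSt y₁ y₂ hy hy2
    have h4 := hG (fun _ => 1) (fun _ => one_ne_zero) (fun _ => by simp) ⟨hA, hD⟩ S hSt y₁ y₂ hy hy2
    have e1 : ∑ n ∈ Ioc y₁ y₂, (1 : ℝ) * ∏ i : Fin k, LL ((1 : ℤ) * (n : ℤ) + s i (q i)) =
        ∑ n ∈ Ioc y₁ y₂, ∏ i : Fin k, LL ((n : ℤ) + s i (q i)) := by
      apply sum_congr rfl
      intro n _
      rw [one_mul]
      apply prod_congr rfl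
      intro i _
      rw [one_mul]
    rw [e1] at h4
    refine h4.trans ?_
    have hp : Real.log (N : ℝ) ^ V ≤ Real.log (X : ℝ) ^ V := pow_le_pow_left₀ hL0.le hLX V
    rw [div_le_div_iff₀ (by positivity) (by positivity), pow_succ, hXr]
    calc (B + 1) * (N : ℝ) * Real.log N ^ V = N * (Real.log N ^ V * (B + 1)) := by ring
      _ ≤ N * (Real.log X ^ V * Real.log X) := by
          apply mul_le_mul_of_nonneg_left _ hN0.le
          apply mul_le_mul hp (by linarith) (by positivity) (by positivity)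
      _ = N * (Real.log ((B + 1) * N) ^ V * Real.log ((B + 1) * N)) := by rw [hXr])
  refine h3.trans ?_
  apply div_le_div_of_nonneg_left (prod_nonneg fun i _ => Nat.cast_nonneg _) (by positivity)
  exact pow_le_pow_left₀ hL0.le hLX U

lemma lamI_le (m : ℤ) (X : ℕ) (h : |m| ≤ X) : ‖((lamI m : ℝ) : ℂ)‖ ≤ Real.log X := by
  rw [Complex.norm_real]
  unfold lamI
  have hl : 0 ≤ Real.log (X : ℝ) := Real.log_natCast_nonneg X
  split_ifs with h1
  · rw [Real.norm_of_nonneg ArithmeticFunction.vonMangoldt_nonneg]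
    refine ArithmeticFunction.vonMangoldt_le_log.trans ?_
    rw [abs_of_nonneg (by omega)] at h
    apply Real.log_le_log
    · exact_mod_cast (by omega : 0 < m.toNat)
    · exact_mod_cast (by omega : m.toNat ≤ X)
  · rw [norm_zero]; exact hl


/-- the exceptional set of the joint property for products of families -/
theorem fam_joint (k l h B C T V U : ℕ) (hB : 1 ≤ B) : ∃ N₀ : ℕ, ∀ N : ℕ, N₀ ≤ N → ∀ θ : ℕ × (ℕ → ℕ → ℂ),
    ((θ.1 : ℝ) ≤ Real.log N ^ T ∧ ∀ t < θ.1, ∀ n, 1 ≤ n → n ≤ B * N → ‖θ.2 t n‖ ≤ Real.log N ^ T) →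
    ∀ (x : Fin (k + l) → ℕ) (s : Fin (k + l) → ℕ → ℤ),
    (∀ i, ∀ m ∈ Icc 1 (x i), |s i m| ≤ B * N) →
    (∀ i, (energy h (x i) (s i) : ℝ) * N ≤ Real.log N ^ C * (x i : ℝ) ^ (2 * h)) →
    ∀ 𝒮 : Finset (Fin (k + l) → ℕ), 𝒮 ⊆ Fintype.piFinset (fun i => Icc 1 (x i)) →
    (∀ q ∈ 𝒮, ¬ PJ k l B V N θ (fun i => s i (q i))) → (𝒮.card : ℝ) ≤ (∏ i, (x i : ℝ)) / Real.log N ^ U := by
  classical
  -- the first part
  have part1 : ∃ N₀ : ℕ, ∀ N : ℕ, N₀ ≤ N → ∀ (x : Fin (k + l) → ℕ) (s : Fin (k + l) → ℕ → ℤ),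
    (∀ i, ∀ m ∈ Icc 1 (x i), |s i m| ≤ B * N) →
    (∀ i, (energy h (x i) (s i) : ℝ) * N ≤ Real.log N ^ C * (x i : ℝ) ^ (2 * h)) →
    ∀ 𝒮 : Finset (Fin (k + l) → ℕ), 𝒮 ⊆ Fintype.piFinset (fun i => Icc 1 (x i)) →
    (∀ q ∈ 𝒮, ¬ (1 ≤ k → Adm (fun _ : Fin k => (1 : ℤ)) (fun i => s (Fin.castAdd l i) (q (Fin.castAdd l i))) →
    Dist (fun _ : Fin k => (1 : ℤ)) (fun i => s (Fin.castAdd l i) (q (Fin.castAdd l i))) →
    ∀ S : ℝ, Filter.Tendsto (fun z => Gz (om (fun _ : Fin k => (1 : ℤ)) (fun i => s (Fin.castAdd l i) (q (Fin.castAdd l i)))) k z)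
      Filter.atTop (nhds S) →
    ∀ y₁ y₂ : ℕ, y₁ ≤ y₂ → y₂ ≤ B * N →
    |∑ n ∈ Ioc y₁ y₂, ∏ i : Fin k, LL ((n : ℤ) + s (Fin.castAdd l i) (q (Fin.castAdd l i))) - S * ((y₂ : ℝ) - y₁)| ≤
      N / Real.log N ^ V)) →
    (𝒮.card : ℝ) ≤ (∏ i, (x i : ℝ)) / Real.log N ^ (U + 1) := by
    rcases Nat.eq_zero_or_pos k with hk | hk
    · refine ⟨0, fun N hN x s hs hE 𝒮 hSx hS => ?_⟩
      have he : 𝒮 = ∅ := by
        rw [eq_empty_iff_forall_notMem]
        intro q hq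
        exact hS q hq (fun h1 => absurd h1 (by omega))
      rw [he, card_empty, Nat.cast_zero]
      apply div_nonneg (prod_nonneg fun i _ => Nat.cast_nonneg _)
      exact pow_nonneg (Real.log_natCast_nonneg N) _
    · obtain ⟨N₀, h0⟩ := fam_gg k h B C V (U + 1) hk
      refine ⟨N₀, fun N hN x s hs hE 𝒮 hSx hS => ?_⟩
      obtain ⟨P, hP⟩ : ∃ P : Finset (Fin k → ℕ), P = 𝒮.image (fun q => fun i => q (Fin.castAdd l i)) := ⟨_, rfl⟩
      have h1 := h0 N hN (fun i => x (Fin.castAdd l i)) (fun i => s (Fin.castAdd l i)) (fun i => hs _) (fun i => hE _) P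
        (by
          intro r hr
          rw [hP, mem_image] at hr
          obtain ⟨q, hq, rfl⟩ := hr
          rw [Fintype.mem_piFinset]
          intro i
          exact Fintype.mem_piFinset.1 (hSx hq) _) (by
          intro r hr
          rw [hP, mem_image] at hr
          obtain ⟨q, hq, rfl⟩ := hr
          intro hc
          exact hS q hq (fun _ => hc))
      have h2 := card_proj x 𝒮 hSx P (fun q hq => by rw [hP]; exact mem_image_of_mem _ hq)
      have h3 : (𝒮.card : ℝ) ≤ (P.card : ℝ) * ∏ j, (x (Fin.natAdd k j) : ℝ) := by exact_mod_cast h2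
      refine h3.trans ?_
      rw [Fin.prod_univ_add, mul_div_right_comm]
      exact mul_le_mul_of_nonneg_right h1 (prod_nonneg fun i _ => Nat.cast_nonneg _)
  -- the second part
  have part2 : ∀ J : Finset (Fin l), J.Nonempty → ∃ N₀ : ℕ, ∀ N : ℕ, N₀ ≤ N → ∀ θ : ℕ × (ℕ → ℕ → ℂ),
    ((θ.1 : ℝ) ≤ Real.log N ^ T ∧ ∀ t < θ.1, ∀ n, 1 ≤ n → n ≤ B * N → ‖θ.2 t n‖ ≤ Real.log N ^ T) →
    ∀ (x : Fin (k + l) → ℕ) (s : Fin (k + l) → ℕ → ℤ),
    (∀ i, ∀ m ∈ Icc 1 (x i), |s i m| ≤ B * N) →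
    (∀ i, (energy h (x i) (s i) : ℝ) * N ≤ Real.log N ^ C * (x i : ℝ) ^ (2 * h)) →
    ∀ 𝒮 : Finset (Fin (k + l) → ℕ), 𝒮 ⊆ Fintype.piFinset (fun i => Icc 1 (x i)) →
    (∀ q ∈ 𝒮, ∃ t < θ.1, ∃ y ≤ B * N, (N : ℝ) / Real.log N ^ V <
    ‖∑ n ∈ Icc 1 y, θ.2 t n * (∏ i : Fin k, ((lamI ((n : ℤ) + s (Fin.castAdd l i) (q (Fin.castAdd l i))) : ℝ) : ℂ)) *
      ∏ j ∈ J, exI liR ((n : ℤ) + s (Fin.natAdd k j) (q (Fin.natAdd k j)))‖) →
    (𝒮.card : ℝ) ≤ (∏ i, (x i : ℝ)) / Real.log N ^ (U + 1) := by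
    intro J hJ
    obtain ⟨j, hj⟩ := hJ
    obtain ⟨N₀, h0⟩ := lam_prod (Fin.natAdd k j) h B C (T + 2 * k) V (U + 1)
    obtain ⟨n2, h2⟩ := ev_L' 2
    refine ⟨N₀ + n2 + 2 * B + 3, fun N hN θ hθ x s hs hE 𝒮 hSx hS => ?_⟩
    have hlog := h2 N (by omega)
    have hN0 : (0 : ℝ) < N := by exact_mod_cast (by omega : 0 < N)
    have hL1 : 1 ≤ Real.log (N : ℝ) := by linarith
    refine h0 N (by omega) x s hs hE 𝒮 hSx θ.1 ?_
      (fun q t n => θ.2 t n * (∏ i : Fin k, ((lamI ((n : ℤ) + s (Fin.castAdd l i) (q (Fin.castAdd l i))) : ℝ) : ℂ)) *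
      ∏ j' ∈ J.erase j, exI liR ((n : ℤ) + s (Fin.natAdd k j') (q (Fin.natAdd k j')))) ?_ ?_ ?_
    · exact hθ.1.trans (pow_le_pow_right₀ hL1 (by omega))
    · intro q hq t ht n hn1 hn2
      rw [norm_mul, norm_mul, norm_prod, norm_prod]
      have e1 : ∏ j' ∈ J.erase j, ‖exI liR ((n : ℤ) + s (Fin.natAdd k j') (q (Fin.natAdd k j')))‖ ≤ 1 :=
        prod_le_one (fun _ _ => norm_nonneg _) (fun _ _ => Pool.Agent.TH823.Fam.exI_norm liR liR_norm _)
      have e2 : ∏ i : Fin k, ‖((lamI ((n : ℤ) + s (Fin.castAdd l i) (q (Fin.castAdd l i))) : ℝ) : ℂ)‖ ≤ (Real.log N ^ 2) ^ k := by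
        calc ∏ i : Fin k, ‖((lamI ((n : ℤ) + s (Fin.castAdd l i) (q (Fin.castAdd l i))) : ℝ) : ℂ)‖
            ≤ ∏ _i : Fin k, Real.log N ^ 2 := by
              apply prod_le_prod (fun _ _ => norm_nonneg _)
              intro i _
              have h5 : |(n : ℤ) + s (Fin.castAdd l i) (q (Fin.castAdd l i))| ≤ ((N * N : ℕ) : ℤ) := by
                have h6 := hs (Fin.castAdd l i) _ (Fintype.mem_piFinset.1 (hSx hq) (Fin.castAdd l i))
                have h7 : |(n : ℤ) + s (Fin.castAdd l i) (q (Fin.castAdd l i))| ≤ |(n : ℤ)| + |s (Fin.castAdd l i) (q (Fin.castAdd l i))| :=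
                  abs_add_le _ _
                have h8 : |(n : ℤ)| ≤ ((B * N : ℕ) : ℤ) := by
                  rw [abs_of_nonneg (by omega)]
                  exact_mod_cast hn2
                have h9 : ((B * N : ℕ) : ℤ) + ((B * N : ℕ) : ℤ) ≤ ((N * N : ℕ) : ℤ) := by
                  have : B * N + B * N ≤ N * N := by
                    rw [← add_mul]
                    exact Nat.mul_le_mul_right _ (by omega)
                  exact_mod_cast this
                push_cast at h6 h7 h8 h9 ⊢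
                linarith
              refine (lamI_le _ _ h5).trans ?_
              rw [Nat.cast_mul, Real.log_mul hN0.ne' hN0.ne', sq]
              nlinarith
          _ = _ := by rw [prod_const, card_univ, Fintype.card_fin]
      have e3 := hθ.2 t ht n hn1 hn2
      calc _ ≤ Real.log N ^ T * (Real.log N ^ 2) ^ k * 1 := by
            apply mul_le_mul _ e1 (prod_nonneg fun _ _ => norm_nonneg _) (by positivity)
            apply mul_le_mul e3 e2 (prod_nonneg fun _ _ => norm_nonneg _) (by positivity)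
        _ = _ := by rw [← pow_mul, ← pow_add, mul_one]
    · intro q m t n
      congr 1
      · congr 1
        apply prod_congr rfl
        intro i _
        rw [Function.update_of_ne]
        intro hc
        have := congrArg Fin.val hc
        simp only [Fin.val_castAdd, Fin.val_natAdd] at this
        have := i.2
        omega
      · apply prod_congr rfl
        intro j' hj'
        rw [Function.update_of_ne]
        intro hc
        apply (mem_erase.1 hj').1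
        apply Fin.ext
        have := congrArg Fin.val hc
        simp only [Fin.val_natAdd] at this
        omega
    · intro q hq
      obtain ⟨t, ht, y, hy, h3⟩ := hS q hq
      refine ⟨t, ht, y, hy, lt_of_lt_of_eq h3 ?_⟩
      congr 1
      apply sum_congr rfl
      intro n _
      rw [← prod_erase_mul J _ hj]
      ring
  obtain ⟨N₀, h0⟩ := part1
  choose M hM using fun J : {J : Finset (Fin l) // J.Nonempty} => part2 J.1 J.2
  obtain ⟨n2, h2⟩ := ev_L' (1 + Fintype.card {J : Finset (Fin l) // J.Nonempty})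
  refine ⟨N₀ + ∑ J, M J + n2 + 3, fun N hN θ hθ x s hs hE 𝒮 hSx hS => ?_⟩
  have hMJ : ∀ J, M J ≤ N := fun J => by
    have := single_le_sum (f := M) (fun i _ => Nat.zero_le _) (mem_univ J)
    omega
  have hlog := h2 N (by omega)
  have hcard0 : (0 : ℝ) ≤ Fintype.card {J : Finset (Fin l) // J.Nonempty} := Nat.cast_nonneg _
  have hL0 : 0 < Real.log (N : ℝ) := by linarith
  have hpr : 0 ≤ ∏ i, (x i : ℝ) := prod_nonneg fun i _ => Nat.cast_nonneg _
  obtain ⟨A1, hA1⟩ : ∃ A1 : (Fin (k + l) → ℕ) → Prop, A1 = fun q => ¬ (1 ≤ k → Adm (fun _ : Fin k => (1 : ℤ)) (fun i => s (Fin.castAdd l i) (q (Fin.castAdd l i))) →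
    Dist (fun _ : Fin k => (1 : ℤ)) (fun i => s (Fin.castAdd l i) (q (Fin.castAdd l i))) →
    ∀ S : ℝ, Filter.Tendsto (fun z => Gz (om (fun _ : Fin k => (1 : ℤ)) (fun i => s (Fin.castAdd l i) (q (Fin.castAdd l i)))) k z)
      Filter.atTop (nhds S) →
    ∀ y₁ y₂ : ℕ, y₁ ≤ y₂ → y₂ ≤ B * N →
    |∑ n ∈ Ioc y₁ y₂, ∏ i : Fin k, LL ((n : ℤ) + s (Fin.castAdd l i) (q (Fin.castAdd l i))) - S * ((y₂ : ℝ) - y₁)| ≤
      N / Real.log N ^ V) := ⟨_, rfl⟩
  obtain ⟨A2, hA2⟩ : ∃ A2 : {J : Finset (Fin l) // J.Nonempty} → (Fin (k + l) → ℕ) → Prop,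
    A2 = fun J q => ∃ t < θ.1, ∃ y ≤ B * N, (N : ℝ) / Real.log N ^ V <
    ‖∑ n ∈ Icc 1 y, θ.2 t n * (∏ i : Fin k, ((lamI ((n : ℤ) + s (Fin.castAdd l i) (q (Fin.castAdd l i))) : ℝ) : ℂ)) *
      ∏ j ∈ J.1, exI liR ((n : ℤ) + s (Fin.natAdd k j) (q (Fin.natAdd k j)))‖ := ⟨_, rfl⟩
  have c1 : ((𝒮.filter A1).card : ℝ) ≤ (∏ i, (x i : ℝ)) / Real.log N ^ (U + 1) := by
    apply h0 N (by omega) x s hs hE _ ((filter_subset _ _).trans hSx)
    intro q hq
    have := (mem_filter.1 hq).2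
    rw [hA1] at this
    exact this
  have c2 : ∀ J, ((𝒮.filter (A2 J)).card : ℝ) ≤ (∏ i, (x i : ℝ)) / Real.log N ^ (U + 1) := by
    intro J
    apply hM J N (hMJ J) θ hθ x s hs hE _ ((filter_subset _ _).trans hSx)
    intro q hq
    have := (mem_filter.1 hq).2
    rw [hA2] at this
    exact this
  have hsub : 𝒮 ⊆ 𝒮.filter A1 ∪ univ.biUnion (fun J => 𝒮.filter (A2 J)) := by
    intro q hq
    rw [mem_union, mem_biUnion]
    by_contra hcon
    push Not at hcon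
    obtain ⟨g1, g2⟩ := hcon
    apply hS q hq
    constructor
    · by_contra h3
      apply g1
      rw [mem_filter]
      refine ⟨hq, ?_⟩
      rw [hA1]
      exact h3
    · intro J hJ t ht y hy
      by_contra h3
      push Not at h3
      apply g2 ⟨J, hJ⟩ (mem_univ _)
      rw [mem_filter]
      refine ⟨hq, ?_⟩
      rw [hA2]
      exact ⟨t, ht, y, hy, h3⟩
  have h5 : (𝒮.card : ℝ) ≤ ((𝒮.filter A1).card : ℝ) + ∑ J, ((𝒮.filter (A2 J)).card : ℝ) := by
    have : 𝒮.card ≤ (𝒮.filter A1).card + ∑ J, (𝒮.filter (A2 J)).card := by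
      refine (card_le_card hsub).trans ((card_union_le _ _).trans ?_)
      exact Nat.add_le_add_left card_biUnion_le _
    exact_mod_cast this
  refine h5.trans ?_
  have h6 : ∑ J, ((𝒮.filter (A2 J)).card : ℝ) ≤ (Fintype.card {J : Finset (Fin l) // J.Nonempty}) *
      ((∏ i, (x i : ℝ)) / Real.log N ^ (U + 1)) := by
    refine (sum_le_sum fun J _ => c2 J).trans ?_
    rw [sum_const, nsmul_eq_mul, card_univ]
  have h7 : (∏ i, (x i : ℝ)) / Real.log N ^ U = Real.log N * ((∏ i, (x i : ℝ)) / Real.log N ^ (U + 1)) := by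
    rw [pow_succ]
    field_simp
  rw [h7]
  have h8 : 0 ≤ (∏ i, (x i : ℝ)) / Real.log N ^ (U + 1) := by positivity
  push_cast at hlog
  calc _ ≤ (∏ i, (x i : ℝ)) / Real.log N ^ (U + 1) + (Fintype.card {J : Finset (Fin l) // J.Nonempty}) *
      ((∏ i, (x i : ℝ)) / Real.log N ^ (U + 1)) := add_le_add c1 h6
    _ = (1 + (Fintype.card {J : Finset (Fin l) // J.Nonempty} : ℝ)) * ((∏ i, (x i : ℝ)) / Real.log N ^ (U + 1)) := by ring
    _ ≤ _ := mul_le_mul_of_nonneg_right (by push_cast; exact hlog) h8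

end Pool.Agent.U471.RP
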