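import Pool.Agent.U471.RP.Joint2

set_option autoImplicit false

/-!
Shifts which are not admissible.
-/

namespace Pool.Agent.U471.RP

open Finset
open Pool.Agent.H373R2.T7 (ev_L' ev_log')
open Pool.Agent.TH935.TF

/-- the von Mangoldt function on the integers -/
noncomputable def vM (m : ℤ) : ℝ := if 1 ≤ m then ArithmeticFunction.vonMangoldt m.toNat else 0

lemma vM_nonneg (m : ℤ) : 0 ≤ vM m := by
  unfold vM
  split_ifs
  · exact ArithmeticFunction.vonMangoldt_nonneg
  · exact le_rfl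

lemma vM_le' (m : ℤ) (X : ℕ) (h : m ≤ X) : vM m ≤ Real.log X := by
  unfold vM
  split_ifs with h1
  · refine ArithmeticFunction.vonMangoldt_le_log.trans ?_
    apply Real.log_le_log
    · exact_mod_cast (by omega : 0 < m.toNat)
    · exact_mod_cast (by omega : m.toNat ≤ X)
  · exact Real.log_natCast_nonneg X

lemma vM_pow (m : ℤ) (p : ℕ) (hp : p.Prime) (h : (p : ℤ) ∣ m) (h0 : vM m ≠ 0) : ∃ j : ℕ, m = (p : ℤ) ^ j := by
  unfold vM at h0
  split_ifs at h0 with h1
  · have h2 := ArithmeticFunction.vonMangoldt_ne_zero_iff.1 h0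
    rw [isPrimePow_nat_iff] at h2
    obtain ⟨q, j, hq, hj, hqj⟩ := h2
    have h3 : p ∣ q ^ j := by
      rw [hqj]
      have : (p : ℤ) ∣ ((m.toNat : ℕ) : ℤ) := by rw [Int.toNat_of_nonneg (by omega)]; exact h
      exact_mod_cast this
    have h4 : p = q := (Nat.prime_dvd_prime_iff_eq hp hq).1 (hp.dvd_of_dvd_pow h3)
    refine ⟨j, ?_⟩
    rw [h4]
    have : ((q ^ j : ℕ) : ℤ) = m := by rw [hqj, Int.toNat_of_nonneg (by omega)]
    rw [← this]
    push_cast
    rfl
  · exact absurd rfl h0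

lemma nonadm_sum {k : ℕ} (h : Fin k → ℤ) (p : ℕ) (hp : p.Prime) (hr : ∀ r : ℤ, ∃ i, (p : ℤ) ∣ r + h i) (X y₁ y₂ : ℕ)
    (hX : ∀ i, (y₂ : ℤ) + h i ≤ X) :
    ∑ n ∈ Ioc y₁ y₂, ∏ i, vM ((n : ℤ) + h i) ≤ (k * (Nat.log 2 X + 1) : ℕ) * Real.log X ^ k := by
  classical
  obtain ⟨T, hT⟩ : ∃ T : Finset ℕ, T = univ.biUnion (fun i : Fin k => (range (Nat.log 2 X + 1)).image
      (fun j => ((p : ℤ) ^ j - h i).toNat)) := ⟨_, rfl⟩
  have hTc : T.card ≤ k * (Nat.log 2 X + 1) := by
    rw [hT]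
    refine card_biUnion_le.trans ?_
    calc ∑ i : Fin k, ((range (Nat.log 2 X + 1)).image (fun j => ((p : ℤ) ^ j - h i).toNat)).card
        ≤ ∑ _i : Fin k, (Nat.log 2 X + 1) := sum_le_sum fun i _ => by
          refine card_image_le.trans ?_
          rw [card_range]
      _ = _ := by rw [sum_const, card_univ, Fintype.card_fin, smul_eq_mul]
  have hl : 0 ≤ Real.log (X : ℝ) := Real.log_natCast_nonneg X
  have h1 : ∀ n ∈ Ioc y₁ y₂, ∏ i, vM ((n : ℤ) + h i) ≤ if n ∈ T then Real.log X ^ k else 0 := by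
    intro n hn
    rw [mem_Ioc] at hn
    by_cases h0 : ∏ i, vM ((n : ℤ) + h i) = 0
    · rw [h0]
      split_ifs <;> positivity
    · rw [← ne_eq, prod_ne_zero_iff] at h0
      obtain ⟨i, hi⟩ := hr n
      obtain ⟨j, hj⟩ := vM_pow _ p hp hi (h0 i (mem_univ _))
      have hnT : n ∈ T := by
        rw [hT, mem_biUnion]
        refine ⟨i, mem_univ _, ?_⟩
        rw [mem_image]
        refine ⟨j, ?_, ?_⟩
        · rw [mem_range]
          have h3 : (p : ℤ) ^ j ≤ X := by
            rw [← hj]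
            have := hX i
            omega
          have h4 : p ^ j ≤ X := by exact_mod_cast h3
          have h5 : 2 ^ j ≤ X := (Nat.pow_le_pow_left hp.two_le j).trans h4
          have := Nat.le_log_of_pow_le (by norm_num) h5
          omega
        · rw [← hj]
          simp
      rw [if_pos hnT]
      calc ∏ i, vM ((n : ℤ) + h i) ≤ ∏ _i : Fin k, Real.log X := by
            apply prod_le_prod (fun _ _ => vM_nonneg _)
            intro i _
            apply vM_le'
            have := hX i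
            omega
        _ = _ := by rw [prod_const, card_univ, Fintype.card_fin]
  refine (sum_le_sum h1).trans ?_
  rw [← sum_filter, sum_const, nsmul_eq_mul]
  apply mul_le_mul_of_nonneg_right _ (by positivity)
  rw [Nat.cast_le]
  refine le_trans (card_le_card ?_) hTc
  intro n hn
  exact (mem_filter.1 hn).2

lemma nonadm_small (k B V : ℕ) : ∃ N₀ : ℕ, ∀ N : ℕ, N₀ ≤ N →
    ((k * (Nat.log 2 (B * N) + 1) : ℕ) : ℝ) * Real.log ((B * N : ℕ) : ℝ) ^ k ≤ N / Real.log N ^ V := by
  obtain ⟨n1, h1⟩ := ev_L' (k * 4 * 2 ^ k + 2)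
  obtain ⟨n2, h2⟩ := ev_log' (k + 2 + V) 1
  refine ⟨n1 + n2 + B + 3, fun N hN => ?_⟩
  have a1 := h1 N (by omega)
  have a2 := h2 N (by omega)
  rw [one_mul] at a2
  have hN0 : (0 : ℝ) < N := by exact_mod_cast (by omega : 0 < N)
  have hk0 : (0 : ℝ) ≤ k * 4 * 2 ^ k := by positivity
  have hL2 : 2 ≤ Real.log (N : ℝ) := by linarith
  rcases Nat.eq_zero_or_pos B with hB | hB
  · rw [hB, zero_mul, Nat.cast_zero, Real.log_zero]
    rcases Nat.eq_zero_or_pos k with hk | hk
    · rw [hk]; simp; positivity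
    · rw [zero_pow (by omega), mul_zero]; positivity
  have hBN : (B * N : ℕ) ≤ N * N := Nat.mul_le_mul_right _ (by omega)
  have hBN0 : (0 : ℝ) < ((B * N : ℕ) : ℝ) := by exact_mod_cast Nat.mul_pos hB (by omega)
  have hlog : Real.log ((B * N : ℕ) : ℝ) ≤ 2 * Real.log N := by
    calc Real.log ((B * N : ℕ) : ℝ) ≤ Real.log ((N * N : ℕ) : ℝ) := Real.log_le_log hBN0 (by exact_mod_cast hBN)
      _ = 2 * Real.log N := by rw [Nat.cast_mul, Real.log_mul hN0.ne' hN0.ne']; ring
  have hlog0 : 0 ≤ Real.log ((B * N : ℕ) : ℝ) := Real.log_natCast_nonneg _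
  have hlog2 : ((Nat.log 2 (B * N) : ℕ) : ℝ) ≤ 2 * Real.log ((B * N : ℕ) : ℝ) := by
    have h3 : (2 : ℝ) ^ (Nat.log 2 (B * N)) ≤ ((B * N : ℕ) : ℝ) := by
      exact_mod_cast Nat.pow_log_le_self 2 (Nat.mul_pos hB (by omega)).ne'
    have h4 := Real.log_le_log (by positivity) h3
    rw [Real.log_pow] at h4
    have h5 : (1 / 2 : ℝ) ≤ Real.log 2 := by have := Real.log_two_gt_d9; linarith
    nlinarith [Nat.cast_nonneg (α := ℝ) (Nat.log 2 (B * N))]
  have e1 : ((k * (Nat.log 2 (B * N) + 1) : ℕ) : ℝ) ≤ k * (4 * Real.log N + 1) := by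
    push_cast
    apply mul_le_mul_of_nonneg_left _ (Nat.cast_nonneg _)
    have : ((Nat.log 2 (B * N) : ℕ) : ℝ) ≤ 4 * Real.log N := by linarith
    linarith
  have e2 : Real.log ((B * N : ℕ) : ℝ) ^ k ≤ (2 * Real.log N) ^ k := pow_le_pow_left₀ hlog0 hlog k
  have hL0 : 0 < Real.log (N : ℝ) := by linarith
  have hL1 : 1 ≤ Real.log (N : ℝ) := by linarith
  rw [le_div_iff₀ (by positivity)]
  calc _ ≤ (k * (4 * Real.log N + 1)) * (2 * Real.log N) ^ k * Real.log N ^ V := by
        apply mul_le_mul_of_nonneg_right _ (by positivity)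
        exact mul_le_mul e1 e2 (by positivity) (by positivity)
    _ ≤ (k * (4 * Real.log N ^ 2)) * (2 * Real.log N) ^ k * Real.log N ^ V := by
        apply mul_le_mul_of_nonneg_right _ (by positivity)
        apply mul_le_mul_of_nonneg_right _ (by positivity)
        apply mul_le_mul_of_nonneg_left _ (Nat.cast_nonneg _)
        nlinarith
    _ = (k * 4 * 2 ^ k) * Real.log N ^ (k + 2 + V) := by
        rw [mul_pow, pow_add, pow_add]
        ring
    _ ≤ Real.log N * Real.log N ^ (k + 2 + V) := by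
        apply mul_le_mul_of_nonneg_right _ (by positivity)
        linarith
    _ ≤ Real.log N ^ (k + 2 + V) * Real.log N ^ (k + 2 + V) := by
        apply mul_le_mul_of_nonneg_right _ (by positivity)
        exact le_self_pow₀ hL1 (by omega)
    _ ≤ √N * √N := mul_le_mul a2 a2 (by positivity) (by positivity)
    _ = N := Real.mul_self_sqrt hN0.le

/-- the number of residue classes -/
lemma om_image {k : ℕ} (h : Fin k → ℤ) (p : ℕ) (hp : p.Prime) :
    om (fun _ : Fin k => (1 : ℤ)) h p = (univ.image (fun i => h i % (p : ℤ))).card := by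
  classical
  unfold om
  have hp0 : (0 : ℤ) < p := by exact_mod_cast hp.pos
  have hneg : ∀ a : ℤ, (-(a % (p : ℤ))) % p = (-a) % p := fun a => (Int.mod_modEq a p).neg
  have e : (range p).filter (fun r : ℕ => ∃ i, (p : ℤ) ∣ 1 * (r : ℤ) + h i) =
      (univ.image (fun i => h i % (p : ℤ))).image (fun a => ((-a) % (p : ℤ)).toNat) := by
    ext r
    rw [mem_filter, mem_range, mem_image]
    constructor
    · rintro ⟨hr1, i, hi⟩
      rw [one_mul] at hi
      refine ⟨h i % (p : ℤ), mem_image_of_mem _ (mem_univ i), ?_⟩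
      rw [hneg]
      have h1 : (r : ℤ) ≡ -h i [ZMOD p] := by
        rw [Int.modEq_iff_dvd]
        have : -h i - (r : ℤ) = -((r : ℤ) + h i) := by ring
        rw [this]
        exact (dvd_neg).2 hi
      have h2 : (-h i) % (p : ℤ) = r := by
        rw [← h1, Int.emod_eq_of_lt (by omega) (by omega)]
      rw [h2, Int.toNat_natCast]
    · rintro ⟨a, ha, hr⟩
      rw [mem_image] at ha
      obtain ⟨i, _, rfl⟩ := ha
      rw [hneg] at hr
      have h1 := Int.emod_nonneg (-h i) hp0.ne'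
      have h2 := Int.emod_lt_of_pos (-h i) hp0
      have h3 : (r : ℤ) = (-h i) % p := by rw [← hr, Int.toNat_of_nonneg h1]
      refine ⟨by omega, i, ?_⟩
      rw [one_mul, h3]
      have h4 : (-h i) % (p : ℤ) + h i = -(p * ((-h i) / p)) := by
        have := Int.emod_add_mul_ediv (-h i) p
        linarith
      rw [h4, dvd_neg]
      exact Dvd.intro _ rfl
  rw [e]
  apply card_image_of_injOn
  intro a ha a' ha' haa
  rw [mem_coe, mem_image] at ha ha'
  obtain ⟨i, _, rfl⟩ := ha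
  obtain ⟨i', _, rfl⟩ := ha'
  simp only at haa
  rw [hneg, hneg] at haa
  have h1 := Int.emod_nonneg (-h i) hp0.ne'
  have h2 := Int.emod_nonneg (-h i') hp0.ne'
  have h3 : (-h i) % (p : ℤ) = (-h i') % p := by omega
  have h4 : (-h i) ≡ (-h i') [ZMOD p] := h3
  have h5 := h4.neg
  rw [neg_neg, neg_neg] at h5
  exact h5

end Pool.Agent.U471.RP
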