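import Pool.Agent.U471.RP.Energy
import Pool.Agent.R459.Nbhd

set_option autoImplicit false

/-!
All the integers near almost all the values of a real polynomial, uniformly in the coefficients.
-/

namespace Pool.Agent.U471.RP

open Finset Polynomial
open Pool.Agent.TH935.GF (En)

theorem near_real (d A C W U : ℕ) (hd : 1 ≤ d) (ε : ℝ) (hε : 0 < ε) (P : ℕ → Prop)
    (hP : ∀ n : ℕ, 0 ≤ 2 * n → Pool.Agent.W93.PG.WinP ε A (2 * n) → P n) :
    ∃ X₀ : ℕ, ∀ X : ℕ, X₀ ≤ X → ∀ f : ℝ[X], f.natDegree ≤ d →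
      1 / Real.log X ^ C ≤ f.coeff d → f.coeff d ≤ Real.log X ^ C →
      (∀ n ∈ Icc 1 X, f.eval (n : ℝ) ≤ (X : ℝ) ^ d * Real.log X ^ C) →
      ∀ S ⊆ Icc 1 X, (∀ n ∈ S, ∃ m : ℕ, 0 < m ∧ |(m : ℝ) - f.eval (n : ℝ)| ≤ Real.log X ^ W ∧ ¬ P m) →
      (S.card : ℝ) ≤ X / Real.log X ^ U := by
  classical
  obtain ⟨K, p, hK, hp, h1⟩ := energy_real d hd
  obtain ⟨n1, h5⟩ := Pool.Agent.R459.near_double p A 1 (6 * C + 1) (W + 1) U 0 hp ε hε P hP
  obtain ⟨n2, h6⟩ := Pool.Agent.H373R2.T7.ev_L' (K * p ^ 2 * 64 + 2)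
  refine ⟨n1 + n2 + 3, fun X hX f hf hf1 hf2 hfX S hSX hS => ?_⟩
  have hL := h6 X (by omega)
  have hX3 : (3 : ℝ) ≤ X := by exact_mod_cast (by omega : 3 ≤ X)
  have hX0 : (0 : ℝ) < X := by linarith
  have hX1 : (1 : ℝ) ≤ X := by linarith
  obtain ⟨L, hLd⟩ : ∃ L, L = Real.log (X : ℝ) := ⟨_, rfl⟩
  rw [← hLd] at hL hf1 hf2 hfX hS ⊢
  have hKp : (0 : ℝ) ≤ K * p ^ 2 * 64 := by positivity
  have hL2 : 2 ≤ L := by linarith
  have hL0 : 0 < L := by linarith
  have hLC : 1 ≤ L ^ C := one_le_pow₀ (by linarith)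
  obtain ⟨M, hM⟩ : ∃ M, M = ⌈L ^ C⌉₊ := ⟨_, rfl⟩
  have hM1 : L ^ C ≤ M := by rw [hM]; exact Nat.le_ceil _
  have hM2 : (M : ℝ) ≤ 2 * L ^ C := by
    have := Nat.ceil_lt_add_one (by positivity : 0 ≤ L ^ C)
    rw [← hM] at this
    linarith
  have hM3 : 1 ≤ M := by
    have : (1 : ℝ) ≤ M := by linarith
    exact_mod_cast this
  obtain ⟨R, hR⟩ : ∃ R, R = X ^ d * M := ⟨_, rfl⟩
  have hXd : X ≤ X ^ d := by
    calc X = X ^ 1 := (pow_one X).symm
      _ ≤ X ^ d := Nat.pow_le_pow_right (by omega) hd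
  have hXR : X ≤ R := by
    rw [hR]
    exact hXd.trans (Nat.le_mul_of_pos_right _ hM3)
  have hRr : (R : ℝ) = (X : ℝ) ^ d * M := by rw [hR]; push_cast; ring
  have hlog : L ≤ Real.log R := by
    rw [hLd]
    exact Real.log_le_log hX0 (by exact_mod_cast hXR)
  obtain ⟨v, hv⟩ : ∃ v : Fin X → ℤ, v = fun i : Fin X => ⌊f.eval (((i : ℕ) + 1 : ℕ) : ℝ)⌋ := ⟨_, rfl⟩
  have hv1 : ∀ i, |(v i : ℝ) - f.eval (((i : ℕ) + 1 : ℕ) : ℝ)| ≤ 1 := by
    intro i
    rw [hv]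
    simp only
    have h7 := Int.floor_le (f.eval (((i : ℕ) + 1 : ℕ) : ℝ))
    have h8 := Int.lt_floor_add_one (f.eval (((i : ℕ) + 1 : ℕ) : ℝ))
    rw [abs_le]
    constructor <;> linarith
  have hE := h1 X R (by omega) (by omega) (2 * L ^ C) 1 (by linarith) le_rfl (by
      rw [hRr]
      calc (X : ℝ) ^ d * M ≤ (X : ℝ) ^ d * (2 * L ^ C) := by gcongr
        _ = _ := by ring) f hf (by
      refine le_trans ?_ hf1
      apply div_le_div_of_nonneg_left (by norm_num) (by positivity)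
      linarith) (by linarith) p le_rfl v hv1
  have key := h5 R (by omega) (Fin X) v (fun i => by
    have h7 := hfX ((i : ℕ) + 1) (by rw [mem_Icc]; exact ⟨by omega, by have := i.2; omega⟩)
    have h8 : (v i : ℝ) ≤ ((1 : ℕ) : ℝ) * R := by
      rw [hv]
      simp only
      refine (Int.floor_le _).trans (h7.trans ?_)
      rw [hRr, Nat.cast_one, one_mul]
      gcongr
    exact_mod_cast h8) (by
    rw [Fintype.card_fin]
    refine hE.trans ?_
    apply mul_le_mul_of_nonneg_right _ (by positivity)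
    calc (K : ℝ) * p ^ 2 * 1 ^ 2 * (2 * L ^ C) ^ 6 = (K * p ^ 2 * 64) * L ^ (6 * C) := by
          rw [mul_pow, ← pow_mul, mul_comm C 6]
          ring
      _ ≤ L * L ^ (6 * C) := by
          apply mul_le_mul_of_nonneg_right _ (by positivity)
          linarith
      _ = L ^ (6 * C + 1) := by rw [pow_succ]; ring
      _ ≤ Real.log R ^ (6 * C + 1) := pow_le_pow_left₀ hL0.le hlog _)
    (univ.filter (fun i : Fin X => (i : ℕ) + 1 ∈ S)) (fun i hi' => by
    rw [mem_filter] at hi'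
    obtain ⟨m, m1, m3, m4⟩ := hS _ hi'.2
    refine ⟨m, m1, ?_, m4⟩
    have h7 := hv1 i
    have h8 : |(m : ℝ) - v i| ≤ |(m : ℝ) - f.eval (((i : ℕ) + 1 : ℕ) : ℝ)| + |(v i : ℝ) - f.eval (((i : ℕ) + 1 : ℕ) : ℝ)| := by
      have e1 : (m : ℝ) - v i = ((m : ℝ) - f.eval (((i : ℕ) + 1 : ℕ) : ℝ)) - ((v i : ℝ) - f.eval (((i : ℕ) + 1 : ℕ) : ℝ)) := by ring
      rw [e1]
      exact abs_sub _ _
    have h9 : L ^ W ≤ Real.log R ^ W := pow_le_pow_left₀ (by linarith) hlog W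
    have h10 : 1 ≤ Real.log R ^ W := one_le_pow₀ (by linarith)
    push_cast
    calc |(m : ℝ) - v i| ≤ Real.log R ^ W * 2 := by linarith
      _ ≤ Real.log R ^ W * Real.log R := by gcongr; linarith
      _ = Real.log R ^ (W + 1) := by rw [pow_succ])
  rw [Fintype.card_fin] at key
  have hcard : S.card = (univ.filter (fun i : Fin X => (i : ℕ) + 1 ∈ S)).card := by
    symm
    apply card_bij (fun (i : Fin X) _ => (i : ℕ) + 1)
    · intro i hi
      exact (mem_filter.1 hi).2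
    · intro i _ j _ h
      apply Fin.ext
      omega
    · intro n hn
      have h7 := mem_Icc.1 (hSX hn)
      refine ⟨⟨n - 1, by omega⟩, ?_, ?_⟩
      · rw [mem_filter]
        refine ⟨mem_univ _, ?_⟩
        simp only
        have : n - 1 + 1 = n := by omega
        rw [this]
        exact hn
      · simp only
        omega
  rw [hcard]
  refine key.trans ?_
  have h11 : L ^ U ≤ Real.log R ^ U := pow_le_pow_left₀ (by linarith) hlog U
  have h12 : 0 < L ^ U := pow_pos (by linarith) U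
  exact div_le_div_of_nonneg_left hX0.le h12 h11

end Pool.Agent.U471.RP
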