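import Pool.Agent.U471.RP.Energy
import Pool.Agent.TH823.PS.Len2

set_option autoImplicit false

/-!
Lengths near the values of real polynomials, with power saving, at most scales.
-/

namespace Pool.Agent.U471.RP

open Finset Polynomial
open Pool.Agent.TH935.GF (En)
open Pool.Agent.TH823.PS (Most most_mono)
open Pool.Agent.TH823.PS.Len (Half families ev_rpow)
open Pool.Agent.TH893.CL (num)
open Pool.Agent.H373R2.T7 (energy)

lemma energy_le_En (p x : ℕ) (s : ℕ → ℤ) : energy p x s ≤ En p (fun i : Fin x => s ((i : ℕ) + 1)) := by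
  classical
  unfold energy En
  rw [Nat.card_eq_fintype_card, Fintype.card_subtype]
  have h : (((Fintype.piFinset fun _ : Fin p => Icc 1 x) ×ˢ (Fintype.piFinset fun _ : Fin p => Icc 1 x)).filter
      (fun q => ∑ i, s (q.1 i) = ∑ i, s (q.2 i))) ⊆
      (univ.filter (fun q : (Fin p → Fin x) × (Fin p → Fin x) =>
        ∑ j, s ((q.1 j : ℕ) + 1) = ∑ j, s ((q.2 j : ℕ) + 1))).image
        (fun q => ((fun i => (q.1 i : ℕ) + 1, fun i => (q.2 i : ℕ) + 1) : (Fin p → ℕ) × (Fin p → ℕ))) := by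
    intro q hq
    rw [mem_filter, mem_product, Fintype.mem_piFinset, Fintype.mem_piFinset] at hq
    obtain ⟨⟨h1, h2⟩, h3⟩ := hq
    have h1' := fun i => mem_Icc.1 (h1 i)
    have h2' := fun i => mem_Icc.1 (h2 i)
    have e1 : ∀ i, q.1 i - 1 + 1 = q.1 i := fun i => by have := h1' i; omega
    have e2 : ∀ i, q.2 i - 1 + 1 = q.2 i := fun i => by have := h2' i; omega
    rw [mem_image]
    refine ⟨(fun i => ⟨q.1 i - 1, by have := h1' i; omega⟩, fun i => ⟨q.2 i - 1, by have := h2' i; omega⟩), ?_, ?_⟩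
    · rw [mem_filter]
      refine ⟨mem_univ _, ?_⟩
      simp only [e1, e2]
      exact h3
    · simp only [e1, e2]
  exact (card_le_card h).trans card_image_le

theorem ps_real {a : ℕ} (ha : 1 ≤ a) {ε : ℝ} (hε : 0 < ε) (B d : ℕ) (hd : 1 ≤ d) :
    ∃ δ : ℝ, 0 < δ ∧ Most ε (fun N => ∀ b : ℕ, b ≤ B * N → ∀ (x : ℕ) (f : ℝ[X]), f.natDegree ≤ d →
      (N : ℝ) ^ (-δ) ≤ f.coeff d → f.coeff d ≤ (N : ℝ) ^ δ → (N : ℝ) ^ (1 - δ) ≤ (x : ℝ) ^ d →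
      (∀ m ∈ Icc 1 x, |f.eval (m : ℝ)| ≤ B * N) → ∀ ξ : ℕ → ℂ, (∀ n, ‖ξ n‖ ≤ 1) →
      num (Icc 1 x) (fun m => ∃ k : ℕ, 0 < k ∧ |(k : ℝ) - f.eval (m : ℝ)| ≤ (N : ℝ) ^ δ ∧ ¬ Half a b N ε ξ k) ≤
        x * (N : ℝ) ^ (-δ)) := by
  classical
  obtain ⟨K, p, hK, hp, h1⟩ := energy_real d hd
  obtain ⟨δ0, hδ0, hmost⟩ := families ha (half_pos hε) (B + 1) p hp
  obtain ⟨δ, hδ⟩ : ∃ δ, δ = min δ0 1 / 24 := ⟨_, rfl⟩
  have hδ1 : 24 * δ ≤ δ0 := by rw [hδ]; have := min_le_left δ0 1; linarith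
  have hδ2 : 24 * δ ≤ 1 := by rw [hδ]; have := min_le_right δ0 1; linarith
  have hδp : 0 < δ := by rw [hδ]; have := lt_min hδ0 one_pos; linarith
  obtain ⟨N₂, hN₂⟩ := ev_rpow hδp (max 7 (9 * K * p ^ 2))
  refine ⟨δ, hδp, most_mono hε hmost (N₁ := max 1 N₂) fun N hN hG b hb x f hf hf1 hf2 hx hfx ξ hξ => ?_⟩
  have hN1 : 1 ≤ N := (le_max_left _ _).trans hN
  have hNb : N₂ ≤ N := (le_max_right _ _).trans hN
  have hN1r : (1 : ℝ) ≤ N := by exact_mod_cast hN1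
  have hN0 : (0 : ℝ) < N := by linarith
  obtain ⟨t, ht⟩ : ∃ t, t = (N : ℝ) ^ δ := ⟨_, rfl⟩
  have ht7 : 7 ≤ t := by rw [ht]; exact (le_max_left _ _).trans (hN₂ N hNb)
  have htK : 9 * K * p ^ 2 ≤ t := by rw [ht]; exact (le_max_right _ _).trans (hN₂ N hNb)
  have ht0 : 0 < t := by linarith
  have htn : ∀ n : ℕ, t ^ n = (N : ℝ) ^ (n * δ) := by
    intro n
    rw [ht, ← Real.rpow_natCast, ← Real.rpow_mul hN0.le, mul_comm]
  have ht2 : t ^ 2 ≤ N := by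
    rw [htn]
    calc (N : ℝ) ^ (((2 : ℕ) : ℝ) * δ) ≤ (N : ℝ) ^ (1 : ℝ) := Real.rpow_le_rpow_of_exponent_le hN1r (by push_cast; linarith)
      _ = N := Real.rpow_one _
  have ht9 : t ^ 9 ≤ (N : ℝ) ^ δ0 := by
    rw [htn]
    exact Real.rpow_le_rpow_of_exponent_le hN1r (by push_cast; linarith)
  have hinv : (N : ℝ) ^ (-δ) = 1 / t := by rw [Real.rpow_neg hN0.le, ← ht, one_div]
  rw [hinv] at hf1
  rw [← ht] at hf2 ⊢
  have hx0 : 1 ≤ x := by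
    by_contra hcon
    have h2 : x = 0 := by omega
    rw [h2] at hx
    have h3 : 0 < (N : ℝ) ^ (1 - δ) := Real.rpow_pos_of_pos hN0 _
    rw [Nat.cast_zero, zero_pow (by omega)] at hx
    linarith
  have hNx : (N : ℝ) ≤ t * (x : ℝ) ^ d := by
    calc (N : ℝ) = (N : ℝ) ^ δ * (N : ℝ) ^ (1 - δ) := by
          rw [← Real.rpow_add hN0]
          have : δ + (1 - δ) = 1 := by ring
          rw [this, Real.rpow_one]
      _ ≤ t * (x : ℝ) ^ d := by rw [← ht]; exact mul_le_mul_of_nonneg_left hx ht0.le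
  -- the family with the offset `c`
  obtain ⟨M, hM⟩ : ∃ M : ℕ, M = ⌊t⌋₊ + 1 := ⟨_, rfl⟩
  have hMt : (M : ℝ) ≤ t + 1 := by
    rw [hM]; push_cast
    have := Nat.floor_le ht0.le
    linarith
  have hfam : ∀ c ∈ Icc (-(M : ℤ)) M, num (Icc 1 x) (fun m => 0 < ⌊f.eval (m : ℝ)⌋ + c ∧
      ¬ Half a b N (ε / 2) ξ (⌊f.eval (m : ℝ)⌋ + c).toNat) ≤ x * (N : ℝ) ^ (-δ0) := by
    intro c hc
    rw [mem_Icc] at hc
    have hc1 : |(c : ℝ)| ≤ t + 1 := by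
      rw [abs_le]
      have h2 : (-(M : ℝ)) ≤ c := by exact_mod_cast hc.1
      have h3 : (c : ℝ) ≤ M := by exact_mod_cast hc.2
      constructor <;> linarith
    have hfl : ∀ y : ℝ, |((⌊y⌋ : ℤ) : ℝ) - y| ≤ 1 := by
      intro y
      have h7 := Int.floor_le y
      have h8 := Int.lt_floor_add_one y
      rw [abs_le]
      constructor <;> linarith
    apply hG b (hb.trans (Nat.mul_le_mul_right _ (by omega))) x (fun m => ⌊f.eval (m : ℝ)⌋ + c) _ _ ξ hξ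
    · intro m hm
      have h2 := hfx m hm
      have h3 := hfl (f.eval (m : ℝ))
      have h4 : |((⌊f.eval (m : ℝ)⌋ : ℤ) : ℝ) + c| ≤ (B + 1) * N := by
        have h5 : |((⌊f.eval (m : ℝ)⌋ : ℤ) : ℝ) + c| ≤ |((⌊f.eval (m : ℝ)⌋ : ℤ) : ℝ) - f.eval (m : ℝ)| + |f.eval (m : ℝ)| + |(c : ℝ)| := by
          have e1 : ((⌊f.eval (m : ℝ)⌋ : ℤ) : ℝ) + c = (((⌊f.eval (m : ℝ)⌋ : ℤ) : ℝ) - f.eval (m : ℝ)) + f.eval (m : ℝ) + c := by ring
          rw [e1]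
          refine (abs_add_le _ _).trans ?_
          have := abs_add_le (((⌊f.eval (m : ℝ)⌋ : ℤ) : ℝ) - f.eval (m : ℝ)) (f.eval (m : ℝ))
          linarith
        have h6 : t + 2 ≤ N := by nlinarith
        linarith
      exact_mod_cast h4
    · have h2 := h1 x N hx0 hN1 t (t + 2) (by linarith) (by linarith) hNx f hf hf1 hf2 p le_rfl
        (fun i : Fin x => ⌊f.eval ((((i : ℕ) + 1 : ℕ)) : ℝ)⌋ + c) (by
          intro i
          have h3 := hfl (f.eval ((((i : ℕ) + 1 : ℕ)) : ℝ))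
          push_cast at h3 ⊢
          have e1 : ((⌊f.eval (((i : ℕ) : ℝ) + 1)⌋ : ℤ) : ℝ) + c - f.eval (((i : ℕ) : ℝ) + 1) =
            (((⌊f.eval (((i : ℕ) : ℝ) + 1)⌋ : ℤ) : ℝ) - f.eval (((i : ℕ) : ℝ) + 1)) + c := by ring
          rw [e1]
          refine (abs_add_le _ _).trans ?_
          linarith)
      have h3 := energy_le_En p x (fun m => ⌊f.eval (m : ℝ)⌋ + c)
      have h3' : (energy p x (fun m => ⌊f.eval (m : ℝ)⌋ + c) : ℝ) ≤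
          En p (fun i : Fin x => ⌊f.eval ((((i : ℕ) + 1 : ℕ)) : ℝ)⌋ + c) := by exact_mod_cast h3
      calc (energy p x (fun m => ⌊f.eval (m : ℝ)⌋ + c) : ℝ) * N ≤
            (En p (fun i : Fin x => ⌊f.eval ((((i : ℕ) + 1 : ℕ)) : ℝ)⌋ + c) : ℝ) * N :=
            mul_le_mul_of_nonneg_right h3' hN0.le
        _ ≤ (K * p ^ 2 * (t + 2) ^ 2 * t ^ 6) * (x : ℝ) ^ (2 * p) := h2
        _ ≤ (K * p ^ 2 * (3 * t) ^ 2 * t ^ 6) * (x : ℝ) ^ (2 * p) := by gcongr; linarith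
        _ = (9 * K * p ^ 2) * t ^ 8 * (x : ℝ) ^ (2 * p) := by ring
        _ ≤ t * t ^ 8 * (x : ℝ) ^ (2 * p) := by gcongr
        _ = t ^ 9 * (x : ℝ) ^ (2 * p) := by ring
        _ ≤ (N : ℝ) ^ δ0 * (x : ℝ) ^ (2 * p) := by gcongr
  have hsub : ((Icc 1 x).filter (fun m : ℕ => ∃ k : ℕ, 0 < k ∧ |(k : ℝ) - f.eval (m : ℝ)| ≤ t ∧ ¬ Half a b N ε ξ k)) ⊆
      (Icc (-(M : ℤ)) M).biUnion (fun c => (Icc 1 x).filter (fun m : ℕ => 0 < ⌊f.eval (m : ℝ)⌋ + c ∧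
        ¬ Half a b N (ε / 2) ξ (⌊f.eval (m : ℝ)⌋ + c).toNat)) := by
    intro m hm
    rw [mem_filter] at hm
    obtain ⟨hm, k, hk0, hk1, hk2⟩ := hm
    rw [mem_biUnion]
    have h7 := Int.floor_le (f.eval (m : ℝ))
    have h8 := Int.lt_floor_add_one (f.eval (m : ℝ))
    have h9 := abs_le.1 hk1
    have hfl1 : t < (⌊t⌋₊ : ℝ) + 1 := Nat.lt_floor_add_one t
    refine ⟨(k : ℤ) - ⌊f.eval (m : ℝ)⌋, ?_, ?_⟩
    · rw [mem_Icc, hM]
      constructor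
      · have h10 : -((⌊t⌋₊ : ℝ) + 1 + 1) < (k : ℝ) - ⌊f.eval (m : ℝ)⌋ := by linarith [h9.1]
        have h11 : -((⌊t⌋₊ : ℤ) + 1 + 1) < (k : ℤ) - ⌊f.eval (m : ℝ)⌋ := by exact_mod_cast h10
        push_cast
        omega
      · have h10 : (k : ℝ) - ⌊f.eval (m : ℝ)⌋ < (⌊t⌋₊ : ℝ) + 1 + 1 := by linarith [h9.2]
        have h11 : (k : ℤ) - ⌊f.eval (m : ℝ)⌋ < (⌊t⌋₊ : ℤ) + 1 + 1 := by exact_mod_cast h10
        push_cast
        omega
    · rw [mem_filter]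
      have e1 : ⌊f.eval (m : ℝ)⌋ + ((k : ℤ) - ⌊f.eval (m : ℝ)⌋) = k := by ring
      rw [e1, Int.toNat_natCast]
      refine ⟨hm, by exact_mod_cast hk0, fun hcon => hk2 fun Y X hYX hX => (hcon Y X hYX hX).trans ?_⟩
      nlinarith
  have hcard : num (Icc 1 x) (fun m => ∃ k : ℕ, 0 < k ∧ |(k : ℝ) - f.eval (m : ℝ)| ≤ t ∧ ¬ Half a b N ε ξ k) ≤
      ∑ c ∈ Icc (-(M : ℤ)) M, num (Icc 1 x) (fun m => 0 < ⌊f.eval (m : ℝ)⌋ + c ∧
        ¬ Half a b N (ε / 2) ξ (⌊f.eval (m : ℝ)⌋ + c).toNat) := by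
    unfold num
    have h2 := (card_le_card hsub).trans card_biUnion_le
    have h3 : ((((Icc 1 x).filter (fun m : ℕ => ∃ k : ℕ, 0 < k ∧ |(k : ℝ) - f.eval (m : ℝ)| ≤ t ∧ ¬ Half a b N ε ξ k)).card : ℕ) : ℝ) ≤
      ((∑ c ∈ Icc (-(M : ℤ)) M, ((Icc 1 x).filter (fun m : ℕ => 0 < ⌊f.eval (m : ℝ)⌋ + c ∧
        ¬ Half a b N (ε / 2) ξ (⌊f.eval (m : ℝ)⌋ + c).toNat)).card : ℕ) : ℝ) := by exact_mod_cast h2
    rw [Nat.cast_sum] at h3
    refine le_trans (le_of_eq ?_) (h3.trans (le_of_eq ?_))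
    · congr!
    · refine sum_congr rfl fun c _ => ?_
      congr!
  refine hcard.trans ((sum_le_sum hfam).trans ?_)
  rw [sum_const, Int.card_Icc, nsmul_eq_mul]
  have h2 : ((M : ℤ) + 1 - -(M : ℤ)).toNat = 2 * M + 1 := by omega
  rw [h2]
  have h3 : ((2 * M + 1 : ℕ) : ℝ) ≤ t ^ 2 := by push_cast; nlinarith
  calc ((2 * M + 1 : ℕ) : ℝ) * (x * (N : ℝ) ^ (-δ0)) ≤ t ^ 2 * (x * (N : ℝ) ^ (-δ0)) :=
        mul_le_mul_of_nonneg_right h3 (by positivity)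
    _ = x * ((N : ℝ) ^ (((2 : ℕ) : ℝ) * δ) * (N : ℝ) ^ (-δ0)) := by rw [htn]; ring
    _ = x * (N : ℝ) ^ (((2 : ℕ) : ℝ) * δ + -δ0) := by rw [Real.rpow_add hN0]
    _ ≤ x * (N : ℝ) ^ (-δ) := by
        apply mul_le_mul_of_nonneg_left _ (Nat.cast_nonneg _)
        exact Real.rpow_le_rpow_of_exponent_le hN1r (by push_cast; linarith)

end Pool.Agent.U471.RP
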