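import Pool.Agent.U471.RP.Prod

set_option autoImplicit false

/-!
All the integer vectors near almost all the vectors of values of real polynomials: the order of the energy is chosen
first; uniformity in further data.
-/

namespace Pool.Agent.U471.RP

open Finset Polynomial
open Pool.Agent.TH935.GF (En)

theorem near_prod' (k : ℕ) (d : Fin k → ℕ) (hd : ∀ i, 1 ≤ d i) (C W U B : ℕ) (hB : 2 ≤ B) : ∃ h C' U' : ℕ, 1 ≤ h ∧
    ∀ (P : ℕ → (Fin k → ℤ) → Prop)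
    (_ : ∃ N₀ : ℕ, ∀ N : ℕ, N₀ ≤ N → ∀ (ι : Fin k → Type) [∀ i, Fintype (ι i)] (v : ∀ i, ι i → ℤ),
      (∀ i j, |v i j| ≤ B * N) →
      (∀ i, (En h (v i) : ℝ) * N ≤ Real.log N ^ C' * (Fintype.card (ι i) : ℝ) ^ (2 * h)) →
      ∀ 𝒮 : Finset (∀ i, ι i), (∀ q ∈ 𝒮, ¬ P N (fun i => v i (q i))) →
      (𝒮.card : ℝ) ≤ (∏ i, (Fintype.card (ι i) : ℝ)) / Real.log N ^ U'),
    ∃ N₀ : ℕ, ∀ N : ℕ, N₀ ≤ N → ∀ (X : Fin k → ℕ) (f : Fin k → ℝ[X]), (∀ i, Nor (d i) C N (X i) (f i)) →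
      ∀ S ⊆ Fintype.piFinset (fun i => Icc 1 (X i)), (∀ n ∈ S, ∃ c : Fin k → ℤ,
        (∀ i, |(c i : ℝ) - (f i).eval (n i : ℝ)| ≤ Real.log N ^ W) ∧ ¬ P N c) →
      (S.card : ℝ) ≤ (∏ i, (X i : ℝ)) / Real.log N ^ U := by
  classical
  choose p hp e1 using fun i => energy_nor (d i) (hd i)
  obtain ⟨h, hh⟩ : ∃ h : ℕ, h = ∑ i, p i + 1 := ⟨_, rfl⟩
  have hph : ∀ i, p i ≤ h := fun i => by
    have := single_le_sum (f := p) (fun i _ => Nat.zero_le _) (mem_univ i)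
    omega
  choose m e2 using fun i => e1 i C h (hph i)
  refine ⟨h, 6 * C + 1, U + k * (W + 2), by omega, fun P H => ?_⟩
  obtain ⟨n1, h1⟩ := H
  obtain ⟨n2, h2⟩ := Pool.Agent.H373R2.T7.ev_L' 5
  obtain ⟨n3, h3⟩ := Pool.Agent.H373R2.T7.ev_log' (W + 1) 1
  refine ⟨∑ i, m i + n1 + n2 + n3 + 3, fun N hN X f hf S hSX hS => ?_⟩
  have hmi : ∀ i, m i ≤ N := fun i => by
    have := single_le_sum (f := m) (fun i _ => Nat.zero_le _) (mem_univ i)
    omega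
  have hL := h2 N (by omega)
  have hW := h3 N (by omega)
  have hN0 : (0 : ℝ) < N := by exact_mod_cast (by omega : 0 < N)
  have hN1 : (1 : ℝ) ≤ N := by exact_mod_cast (by omega : 1 ≤ N)
  have e0 := fun i => e2 i N (hmi i) (X i) (f i) (hf i)
  have c0 := h1 N (by omega) (fun i => Fin (X i))
  have hsz := fun i => (hf i).size
  obtain ⟨L, hLd⟩ : ∃ L, L = Real.log (N : ℝ) := ⟨_, rfl⟩
  rw [← hLd] at hL hW hS ⊢
  rw [one_mul] at hW
  simp only [← hLd] at e0 c0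
  have hL0 : 0 < L := by linarith
  have hL1 : 1 ≤ L := by linarith
  obtain ⟨v, hv⟩ : ∃ v : ∀ i, Fin (X i) → ℤ, v = fun i (j : Fin (X i)) => ⌊(f i).eval (((j : ℕ) + 1 : ℕ) : ℝ)⌋ := ⟨_, rfl⟩
  have hv1 : ∀ i j, |(v i j : ℝ) - (f i).eval (((j : ℕ) + 1 : ℕ) : ℝ)| ≤ 1 := by
    intro i j
    rw [hv]
    simp only
    have h7 := Int.floor_le ((f i).eval (((j : ℕ) + 1 : ℕ) : ℝ))
    have h8 := Int.lt_floor_add_one ((f i).eval (((j : ℕ) + 1 : ℕ) : ℝ))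
    rw [abs_le]
    constructor <;> linarith
  obtain ⟨Q, hQ⟩ : ∃ Q : ℕ, Q = ⌊L ^ W + 1⌋₊ := ⟨_, rfl⟩
  have hLW : 1 ≤ L ^ W := one_le_pow₀ hL1
  have hQ1 : (Q : ℝ) ≤ L ^ W + 1 := by rw [hQ]; exact Nat.floor_le (by positivity)
  have hQX : (Q : ℝ) + 1 ≤ N := by
    have h4 : L ^ W + 2 ≤ L ^ (W + 1) := by
      rw [pow_succ]
      nlinarith
    have h5 : √(N : ℝ) ≤ N := by
      rw [Real.sqrt_le_left (by linarith)]
      nlinarith
    linarith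
  have hvb : ∀ i j, |v i j| + Q ≤ 2 * N := by
    intro i j
    have h7 := hsz i ((j : ℕ) + 1) (by rw [mem_Icc]; exact ⟨by omega, by have := j.2; omega⟩)
    have h8 : |(v i j : ℝ)| ≤ N + 1 := by
      calc |(v i j : ℝ)| = |(f i).eval (((j : ℕ) + 1 : ℕ) : ℝ) + ((v i j : ℝ) - (f i).eval (((j : ℕ) + 1 : ℕ) : ℝ))| := by
            congr 1; ring
        _ ≤ |(f i).eval (((j : ℕ) + 1 : ℕ) : ℝ)| + |(v i j : ℝ) - (f i).eval (((j : ℕ) + 1 : ℕ) : ℝ)| := abs_add_le _ _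
        _ ≤ N + 1 := add_le_add h7 (hv1 i j)
    have h10 : ((|v i j| + Q : ℤ) : ℝ) ≤ ((2 * N : ℕ) : ℝ) := by
      push_cast
      linarith
    exact_mod_cast h10
  obtain ⟨Pr, hPr⟩ : ∃ Pr : ℝ, Pr = ∏ i, (X i : ℝ) := ⟨_, rfl⟩
  have hPr0 : 0 ≤ Pr := by rw [hPr]; exact prod_nonneg fun i _ => Nat.cast_nonneg _
  have key : ∀ s : Fin k → ℤ, (∀ i, |s i| ≤ Q) → ∀ T : Finset (∀ i, Fin (X i)), (∀ q ∈ T, ¬ P N (fun i => v i (q i) + s i)) →
      (T.card : ℝ) ≤ Pr / L ^ (U + k * (W + 2)) := by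
    intro s hs T hT
    have h7 := c0 (fun i j => v i j + s i) (fun i j => by
      have h8 := hvb i j
      have h9 : |v i j + s i| ≤ |v i j| + |s i| := abs_add_le _ _
      have h10 : (2 : ℤ) * N ≤ B * N := by
        have : 2 * N ≤ B * N := Nat.mul_le_mul_right _ hB
        exact_mod_cast this
      have h11 := hs i
      linarith) (fun i => by
      rw [Fintype.card_fin, Pool.Agent.R459.En_shift]
      exact (e0 i (v i) (hv1 i)).2) T hT
    simp only [Fintype.card_fin] at h7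
    rw [hPr]
    exact h7
  obtain ⟨S', hS'⟩ : ∃ S' : Finset (∀ i, Fin (X i)), S' = univ.filter (fun q => (fun i => ((q i : Fin (X i)) : ℕ) + 1) ∈ S) := ⟨_, rfl⟩
  have hcard : S.card = S'.card := by
    rw [hS']
    symm
    apply card_bij (fun (q : ∀ i, Fin (X i)) _ => fun i => ((q i : Fin (X i)) : ℕ) + 1)
    · intro i hi
      exact (mem_filter.1 hi).2
    · intro q _ q' _ h
      funext i
      apply Fin.ext
      have := congrFun h i
      omega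
    · intro n hn
      have h7 := Fintype.mem_piFinset.1 (hSX hn)
      have h8 : ∀ i, 1 ≤ n i ∧ n i ≤ X i := fun i => mem_Icc.1 (h7 i)
      refine ⟨fun i => ⟨n i - 1, by have := h8 i; omega⟩, ?_, ?_⟩
      · rw [mem_filter]
        refine ⟨mem_univ _, ?_⟩
        simp only
        have : (fun i => n i - 1 + 1) = n := by
          funext i
          have := h8 i
          omega
        rw [this]
        exact hn
      · funext i
        simp only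
        have := h8 i
        omega
  obtain ⟨I, hI⟩ : ∃ I : Finset (Fin k → ℤ), I = Fintype.piFinset (fun _ => Icc (-(Q : ℤ)) Q) := ⟨_, rfl⟩
  have hsub : S' ⊆ I.biUnion (fun s => S'.filter (fun q => ¬ P N (fun i => v i (q i) + s i))) := by
    intro q hq
    have hi' := hq
    rw [hS', mem_filter] at hi'
    obtain ⟨c, c2, c3⟩ := hS _ hi'.2
    rw [mem_biUnion]
    have hcv : ∀ i, |c i - v i (q i)| ≤ Q := by
      intro i
      have h7 := hv1 i (q i)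
      have h8 : |(c i : ℝ) - v i (q i)| ≤ L ^ W + 1 := by
        calc |(c i : ℝ) - v i (q i)| = |((c i : ℝ) - (f i).eval (((q i : ℕ) + 1 : ℕ) : ℝ)) -
              ((v i (q i) : ℝ) - (f i).eval (((q i : ℕ) + 1 : ℕ) : ℝ))| := by
              congr 1; ring
          _ ≤ |(c i : ℝ) - (f i).eval (((q i : ℕ) + 1 : ℕ) : ℝ)| + |(v i (q i) : ℝ) - (f i).eval (((q i : ℕ) + 1 : ℕ) : ℝ)| := abs_sub _ _
          _ ≤ L ^ W + 1 := add_le_add (c2 i) h7
      have h9 : (((c i - v i (q i)).natAbs : ℕ) : ℝ) ≤ L ^ W + 1 := by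
        rw [Nat.cast_natAbs, Int.cast_abs]
        push_cast
        exact h8
      have h10 : (c i - v i (q i)).natAbs ≤ Q := by rw [hQ]; exact Nat.le_floor h9
      rw [Int.abs_eq_natAbs]
      exact_mod_cast h10
    refine ⟨fun i => c i - v i (q i), ?_, ?_⟩
    · rw [hI, Fintype.mem_piFinset]
      intro i
      rw [mem_Icc]
      exact abs_le.1 (hcv i)
    · rw [mem_filter]
      have e : (fun i => v i (q i) + (c i - v i (q i))) = c := by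
        funext i
        ring
      rw [e]
      exact ⟨hq, c3⟩
  have hc1 : (S'.card : ℝ) ≤ ∑ s ∈ I, (Pr / L ^ (U + k * (W + 2))) := by
    have h7 : S'.card ≤ ∑ s ∈ I, (S'.filter (fun q => ¬ P N (fun i => v i (q i) + s i))).card :=
      (card_le_card hsub).trans card_biUnion_le
    have h8 : (S'.card : ℝ) ≤ ∑ s ∈ I, ((S'.filter (fun q => ¬ P N (fun i => v i (q i) + s i))).card : ℝ) := by
      exact_mod_cast h7
    refine h8.trans (sum_le_sum fun s hs => ?_)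
    rw [hI, Fintype.mem_piFinset] at hs
    exact key s (fun i => abs_le.2 (mem_Icc.1 (hs i))) _ (fun i hi => (mem_filter.1 hi).2)
  rw [hcard, ← hPr]
  refine hc1.trans ?_
  rw [sum_const, nsmul_eq_mul]
  have hcd : (I.card : ℝ) ≤ (L ^ (W + 2)) ^ k := by
    rw [hI, Fintype.card_piFinset, prod_const, card_univ, Fintype.card_fin]
    push_cast
    apply pow_le_pow_left₀ (Nat.cast_nonneg _)
    rw [Int.card_Icc]
    have h9 : (((Q : ℤ) + 1 - -(Q : ℤ)).toNat : ℝ) = 2 * Q + 1 := by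
      have : ((Q : ℤ) + 1 - -(Q : ℤ)).toNat = 2 * Q + 1 := by omega
      rw [this]
      push_cast
      ring
    rw [h9]
    have h10 : 5 ≤ L ^ 2 := by nlinarith
    have h11 : L ^ W * 5 ≤ L ^ W * L ^ 2 := mul_le_mul_of_nonneg_left h10 (by linarith)
    rw [pow_add]
    linarith
  calc (I.card : ℝ) * (Pr / L ^ (U + k * (W + 2)))
      ≤ (L ^ (W + 2)) ^ k * (Pr / L ^ (U + k * (W + 2))) := mul_le_mul_of_nonneg_right hcd (by positivity)
    _ = Pr / L ^ U := by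
        rw [pow_add L U, ← pow_mul, mul_comm (W + 2) k]
        field_simp


/-- uniformity in further data -/
theorem near_par' {Θ : Type} (k : ℕ) (d : Fin k → ℕ) (hd : ∀ i, 1 ≤ d i) (C W U B : ℕ) (hB : 2 ≤ B) : ∃ h C' U' : ℕ, 1 ≤ h ∧
    ∀ (Q : ℕ → Θ → Prop) (P : ℕ → Θ → (Fin k → ℤ) → Prop)
    (_ : ∃ N₀ : ℕ, ∀ N : ℕ, N₀ ≤ N → ∀ θ : Θ, Q N θ → ∀ (ι : Fin k → Type) [∀ i, Fintype (ι i)] (v : ∀ i, ι i → ℤ),
      (∀ i j, |v i j| ≤ B * N) →
      (∀ i, (En h (v i) : ℝ) * N ≤ Real.log N ^ C' * (Fintype.card (ι i) : ℝ) ^ (2 * h)) →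
      ∀ 𝒮 : Finset (∀ i, ι i), (∀ q ∈ 𝒮, ¬ P N θ (fun i => v i (q i))) →
      (𝒮.card : ℝ) ≤ (∏ i, (Fintype.card (ι i) : ℝ)) / Real.log N ^ U'),
    ∃ N₀ : ℕ, ∀ N : ℕ, N₀ ≤ N → ∀ θ : Θ, Q N θ → ∀ (X : Fin k → ℕ) (f : Fin k → ℝ[X]), (∀ i, Nor (d i) C N (X i) (f i)) →
      ∀ S ⊆ Fintype.piFinset (fun i => Icc 1 (X i)), (∀ n ∈ S, ∃ c : Fin k → ℤ,
        (∀ i, |(c i : ℝ) - (f i).eval (n i : ℝ)| ≤ Real.log N ^ W) ∧ ¬ P N θ c) →
      (S.card : ℝ) ≤ (∏ i, (X i : ℝ)) / Real.log N ^ U := by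
  classical
  obtain ⟨h, C', U', hh, hmain⟩ := near_prod' k d hd C W U B hB
  refine ⟨h, C', U', hh, fun Q P H => ?_⟩
  obtain ⟨Bad, hBad⟩ : ∃ Bad : ℕ → Θ → Prop, Bad = fun N θ => Q N θ ∧ ∃ (X : Fin k → ℕ) (f : Fin k → ℝ[X]),
      (∀ i, Nor (d i) C N (X i) (f i)) ∧ ∃ S ⊆ Fintype.piFinset (fun i => Icc 1 (X i)), (∀ n ∈ S, ∃ c : Fin k → ℤ,
        (∀ i, |(c i : ℝ) - (f i).eval (n i : ℝ)| ≤ Real.log N ^ W) ∧ ¬ P N θ c) ∧
      ¬ (S.card : ℝ) ≤ (∏ i, (X i : ℝ)) / Real.log N ^ U := ⟨_, rfl⟩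
  have hBad' : ∀ N θ, Bad N θ → Q N θ ∧ ∃ (X : Fin k → ℕ) (f : Fin k → ℝ[X]),
      (∀ i, Nor (d i) C N (X i) (f i)) ∧ ∃ S ⊆ Fintype.piFinset (fun i => Icc 1 (X i)), (∀ n ∈ S, ∃ c : Fin k → ℤ,
        (∀ i, |(c i : ℝ) - (f i).eval (n i : ℝ)| ≤ Real.log N ^ W) ∧ ¬ P N θ c) ∧
      ¬ (S.card : ℝ) ≤ (∏ i, (X i : ℝ)) / Real.log N ^ U := by
    intro N θ h
    rw [hBad] at h
    exact h
  obtain ⟨N₀, h0⟩ := hmain (fun N β => ∀ hN : ∃ θ, Bad N θ, P N (Classical.choose hN) β) (by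
      obtain ⟨N₀, h1⟩ := H
      refine ⟨N₀, fun N hN ι _ v hv hE 𝒮 hS => ?_⟩
      by_cases hex : ∃ θ, Bad N θ
      · exact h1 N hN (Classical.choose hex) (hBad' _ _ (Classical.choose_spec hex)).1 ι v hv hE 𝒮
          (fun q hq hc => hS q hq (fun _ => hc))
      · have he : 𝒮 = ∅ := by
          rw [eq_empty_iff_forall_notMem]
          intro q hq
          exact hS q hq (fun hN => absurd hN hex)
        rw [he, card_empty, Nat.cast_zero]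
        apply div_nonneg (prod_nonneg fun i _ => Nat.cast_nonneg _)
        exact pow_nonneg (Real.log_natCast_nonneg N) _)
  refine ⟨N₀, fun N hN θ hθ X f hf S hSX hS => ?_⟩
  by_contra hcon
  have hex : ∃ θ, Bad N θ := by
    refine ⟨θ, ?_⟩
    rw [hBad]
    exact ⟨hθ, X, f, hf, S, hSX, hS, hcon⟩
  obtain ⟨_, X', f', hf', S', hS'X, hS', hcon'⟩ := hBad' _ _ (Classical.choose_spec hex)
  apply hcon'
  refine h0 N hN X' f' hf' S' hS'X (fun n hn => ?_)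
  obtain ⟨c, hc1, hc2⟩ := hS' n hn
  exact ⟨c, hc1, fun hall => hc2 (hall hex)⟩

end Pool.Agent.U471.RP
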